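import Pool.Agent.Helper97.GM.Defs

/-!
# The ideal of a stable variety is graded (Nullstellensatz)
-/

set_option autoImplicit false

namespace Pool.Agent.Helper97.GM

open MvPolynomial

/-- a Laurent polynomial vanishing at all nonzero points of an infinite field is zero -/
theorem laurent_zero {k : Type*} [Field k] [Infinite k] (S : Finset ℤ) (a : ℤ → k)
    (h : ∀ t : k, t ≠ 0 → ∑ v ∈ S, t ^ v * a v = 0) : ∀ v ∈ S, a v = 0 := by
  classical
  set N : ℤ := ∑ v ∈ S, |v| with hN
  have hpos : ∀ v ∈ S, 0 ≤ v + N := by
    intro v hv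
    have h1 : |v| ≤ N := Finset.single_le_sum (f := fun v : ℤ => |v|) (fun _ _ => abs_nonneg _) hv
    have h2 := neg_abs_le v
    linarith
  set p : Polynomial k := ∑ v ∈ S, Polynomial.monomial (v + N).toNat (a v) with hp
  have hroot : ∀ t : k, t ≠ 0 → p.eval t = 0 := by
    intro t ht
    have h1 := h t ht
    rw [hp, Polynomial.eval_finset_sum]
    have h2 : ∀ v ∈ S, Polynomial.eval t (Polynomial.monomial (v + N).toNat (a v)) =
        t ^ N * (t ^ v * a v) := by
      intro v hv
      rw [Polynomial.eval_monomial, ← zpow_natCast, Int.toNat_of_nonneg (hpos v hv),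
        zpow_add₀ ht]
      ring
    rw [Finset.sum_congr rfl h2, ← Finset.mul_sum, h1, mul_zero]
  have hp0 : p = 0 := by
    apply Polynomial.eq_zero_of_infinite_isRoot
    refine Set.Infinite.mono ?_ (Set.finite_singleton (0 : k)).infinite_compl
    intro t ht
    exact hroot t ht
  intro w hw
  have h1 : p.coeff (w + N).toNat = 0 := by rw [hp0]; simp
  rw [hp, Polynomial.finset_sum_coeff, Finset.sum_eq_single w] at h1
  · rw [Polynomial.coeff_monomial_same] at h1
    exact h1
  · intro v hv hvw
    rw [Polynomial.coeff_monomial, if_neg]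
    intro heq
    apply hvw
    have h2 := hpos v hv
    have h3 := hpos w hw
    omega
  · intro hcon
    exact absurd hw hcon

variable {k : Type*} [Field k] {σ : Type*} [Fintype σ]

/-- scaling by weights, one polynomial -/
theorem aeval_weight {L : Type*} [Field L] [Algebra k L] {b : σ → ℤ} {t : L} (ht : t ≠ 0)
    (x : σ → L) (f : MvPolynomial σ k) :
    aeval (fun i => t ^ b i * x i) f =
      ∑ d ∈ f.support, t ^ (Finsupp.weight b d) * (algebraMap k L (coeff d f) * ∏ i, x i ^ d i) := by
  rw [aeval_def, eval₂_eq']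
  refine Finset.sum_congr rfl fun d _ => ?_
  have h1 : ∏ i, (t ^ b i * x i) ^ d i = t ^ (Finsupp.weight b d) * ∏ i, x i ^ d i := by
    have h2 : Finsupp.weight b d = ∑ i, (d i : ℤ) * b i := by
      rw [Finsupp.weight_apply, Finsupp.sum_fintype _ _ (fun i => by simp)]
      refine Finset.sum_congr rfl fun i _ => ?_
      rw [nsmul_eq_mul]
    rw [h2]
    have h3 : t ^ (∑ i, (d i : ℤ) * b i) = ∏ i, (t ^ b i) ^ d i := by
      have h4 : ∀ s : Finset σ, t ^ (∑ i ∈ s, (d i : ℤ) * b i) = ∏ i ∈ s, (t ^ b i) ^ d i := by
        classical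
        intro s
        induction s using Finset.induction_on with
        | empty => simp
        | insert i s hi ih =>
          rw [Finset.sum_insert hi, Finset.prod_insert hi, zpow_add₀ ht, ih]
          congr 1
          rw [mul_comm, zpow_mul, zpow_natCast]
      exact h4 _
    rw [h3, ← Finset.prod_mul_distrib]
    exact Finset.prod_congr rfl fun i _ => mul_pow _ _ _
  rw [h1]
  ring

theorem aeval_wcomp {L : Type*} [Field L] [Algebra k L] {b : σ → ℤ} (x : σ → L) (w : ℤ)
    (f : MvPolynomial σ k) : aeval x (weightedHomogeneousComponent b w f) =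
      ∑ d ∈ f.support with Finsupp.weight b d = w,
        (algebraMap k L (coeff d f) * ∏ i, x i ^ d i) := by
  classical
  rw [weightedHomogeneousComponent_apply, map_sum]
  refine Finset.sum_congr rfl fun d _ => ?_
  rw [aeval_monomial, Finsupp.prod_fintype _ _ (fun i => by simp)]

/-- scaling of a form -/
theorem aeval_smul_form {L : Type*} [CommRing L] [Algebra k L] (c : L) (x : σ → L)
    {f : MvPolynomial σ k} {n : ℕ} (hf : f.IsHomogeneous n) :
    aeval (fun i => c * x i) f = c ^ n * aeval x f := by
  rw [aeval_def, aeval_def, eval₂_eq', eval₂_eq', Finset.mul_sum]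
  refine Finset.sum_congr rfl fun d hd => ?_
  have h1 : ∏ i, (c * x i) ^ d i = c ^ n * ∏ i, x i ^ d i := by
    have h2 : n = ∑ i, d i := by
      have h3 := hf (mem_support_iff.1 hd)
      rw [← h3, Finsupp.weight_apply, Finsupp.sum_fintype _ _ (fun i => by simp)]
      simp
    rw [h2, ← Finset.prod_pow_eq_pow_sum, ← Finset.prod_mul_distrib]
    exact Finset.prod_congr rfl fun i _ => mul_pow _ _ _
  rw [h1]
  ring

/-- ideals of the form: all polynomials vanishing at the zeros of a prime ideal -/
theorem mem_of_vanish [IsAlgClosed k] {I : Ideal (MvPolynomial σ k)} (hI : I.IsPrime)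
    {f : MvPolynomial σ k} (h : ∀ x : σ → k, On I x → aeval x f = 0) : f ∈ I := by
  have h1 := vanishingIdeal_zeroLocus_eq_radical (k := k) (K := k) I
  rw [hI.radical] at h1
  rw [← h1, mem_vanishingIdeal_iff]
  intro x hx
  exact h x hx

/-- `k` algebraically closed, `I` prime, the set of its zeros stable under `t ↦ (t ^ b_i x_i)`:
the ideal is graded for the weights `b`. -/
theorem graded_of_stable [IsAlgClosed k] {I : Ideal (MvPolynomial σ k)} (hI : I.IsPrime) {b : σ → ℤ}
    (h : ∀ t : k, t ≠ 0 → ∀ x : σ → k, On I x → On I (fun i => t ^ b i * x i)) : Graded I b := by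
  classical
  intro f hf w
  apply mem_of_vanish hI
  intro x hx
  haveI : Infinite k := IsAlgClosed.instInfinite
  have h1 : ∀ v ∈ f.support.image (Finsupp.weight b),
      aeval x (weightedHomogeneousComponent b v f) = 0 := by
    apply laurent_zero
    intro t ht
    have h2 := h t ht x hx f hf
    rw [aeval_weight ht] at h2
    rw [← Finset.sum_fiberwise_of_maps_to (t := f.support.image (Finsupp.weight b))
      (g := Finsupp.weight b) (fun d hd => Finset.mem_image_of_mem _ hd)] at h2
    rw [← h2]
    refine Finset.sum_congr rfl fun v _ => ?_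
    rw [aeval_wcomp, Finset.mul_sum]
    refine Finset.sum_congr rfl fun d hd => ?_
    rw [(Finset.mem_filter.1 hd).2]
  by_cases hw : w ∈ f.support.image (Finsupp.weight b)
  · exact h1 w hw
  · have h2 : weightedHomogeneousComponent b w f = 0 := by
      apply weightedHomogeneousComponent_eq_zero'
      intro d hd heq
      exact hw (heq ▸ Finset.mem_image_of_mem _ hd)
    rw [h2, map_zero]

/-- the zeros of a homogeneous ideal are stable under scaling -/
theorem on_smul {I : Ideal (MvPolynomial σ k)} (hI : Hom I) {L : Type*} [Field L] [Algebra k L]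
    (c : L) {x : σ → L} (hx : On I x) : On I (fun i => c * x i) := by
  intro f hf
  rw [← sum_homogeneousComponent f, map_sum]
  refine Finset.sum_eq_zero fun d _ => ?_
  rw [aeval_smul_form c x (homogeneousComponent_isHomogeneous d f), hx _ (hI f hf d), mul_zero]

theorem smoothPt_smul {I : Ideal (MvPolynomial σ k)} {L : Type*} [Field L] [Algebra k L]
    {c : L} (hc : c ≠ 0) {x : σ → L} (hx : SmoothPt I x) : SmoothPt I (fun i => c * x i) := by
  obtain ⟨r, f, d, h, e, h1, h2, h3, h4, h5, h6⟩ := hx
  refine ⟨r, f, d, h, e, h1, h2, h3, ?_, ?_, h6⟩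
  · have h7 := h4.units_smul (fun j => Units.mk0 (c ^ (d j - 1)) (pow_ne_zero _ hc))
    convert h7 using 1
    funext j i
    rw [aeval_smul_form c x ((h2 j).pderiv (i := i))]
    rfl
  · rw [aeval_smul_form c x h3]
    exact mul_ne_zero (pow_ne_zero _ hc) h5

theorem tpos_smul {I : Ideal (MvPolynomial σ k)} (hI : Hom I) {b : σ → ℤ} {L : Type*} [Field L]
    [Algebra k L] {c : L} (hc : c ≠ 0) {p v : σ → L} (hv : TPos I b p v) :
    TPos I b (fun i => c * p i) v := by
  have _ := hc
  refine ⟨hv.1, fun f hf => ?_⟩
  have h1 : ∀ d, ∑ i, aeval (fun i => c * p i) (pderiv i (homogeneousComponent d f)) * v i = 0 := by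
    intro d
    have h2 := hv.2 _ (hI f hf d)
    have h3 : ∀ i, aeval (fun i => c * p i) (pderiv i (homogeneousComponent d f)) * v i =
        c ^ (d - 1) * (aeval p (pderiv i (homogeneousComponent d f)) * v i) := by
      intro i
      rw [aeval_smul_form c p ((homogeneousComponent_isHomogeneous d f).pderiv (i := i))]
      ring
    rw [Finset.sum_congr rfl fun i _ => h3 i, ← Finset.mul_sum, h2, mul_zero]
  have h2 : ∀ i, aeval (fun i => c * p i) (pderiv i f) * v i =
      ∑ d ∈ Finset.range (f.totalDegree + 1),
        aeval (fun i => c * p i) (pderiv i (homogeneousComponent d f)) * v i := by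
    intro i
    conv_lhs => rw [← sum_homogeneousComponent f]
    rw [map_sum, map_sum, Finset.sum_mul]
  rw [Finset.sum_congr rfl fun i _ => h2 i, Finset.sum_comm]
  exact Finset.sum_eq_zero fun d _ => h1 d

end Pool.Agent.Helper97.GM
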