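import Pool.Agent.Helper97.GM.BB

/-!
# A fixed point with two independent attracting directions
-/

set_option autoImplicit false

namespace Pool.Agent.Helper97.GM

open MvPolynomial

variable {k : Type*} [Field k] {σ : Type*} [Fintype σ]

/-- Two independent vectors have a nonzero minor. -/
theorem exists_minor {v v' : σ → k} (h : LinearIndependent k ![v, v']) :
    ∃ i j, v i * v' j - v j * v' i ≠ 0 := by
  by_contra hcon
  push Not at hcon
  have h1 := LinearIndependent.pair_iff.1 h
  have hv : v ≠ 0 := by
    intro h0
    have := h1 1 0 (by rw [h0]; simp)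
    exact one_ne_zero this.1
  obtain ⟨i, hi⟩ := Function.ne_iff.1 hv
  have h2 := h1 (v' i) (-(v i)) (by
    funext j
    have h3 := hcon i j
    simp only [Pi.add_apply, Pi.smul_apply, smul_eq_mul, Pi.zero_apply]
    linear_combination -h3)
  exact hi (neg_eq_zero.1 h2.2)

/-- A subfield of `k(u_0, u_1)` which contains `u_0` and `u_1` is everything. -/
theorem top_of_vars {E : IntermediateField k (FractionRing (MvPolynomial (Fin 2) k))}
    (h : ∀ m : Fin 2, algebraMap (MvPolynomial (Fin 2) k) (FractionRing (MvPolynomial (Fin 2) k)) (X m) ∈ E) :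
    E = ⊤ := by
  have h1 : ∀ f : MvPolynomial (Fin 2) k,
      algebraMap (MvPolynomial (Fin 2) k) (FractionRing (MvPolynomial (Fin 2) k)) f ∈ E := by
    intro f
    induction f using MvPolynomial.induction_on with
    | C a =>
      have h2 : algebraMap (MvPolynomial (Fin 2) k) (FractionRing (MvPolynomial (Fin 2) k)) (C a)
          = algebraMap k (FractionRing (MvPolynomial (Fin 2) k)) a := by
        rw [IsScalarTower.algebraMap_apply k (MvPolynomial (Fin 2) k)
          (FractionRing (MvPolynomial (Fin 2) k)) a]
        rfl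
      rw [h2]
      exact E.algebraMap_mem a
    | add p q hp hq =>
      rw [map_add]
      exact add_mem hp hq
    | mul_X p n hp =>
      rw [map_mul]
      exact mul_mem hp (h n)
  rw [eq_top_iff]
  intro x _
  obtain ⟨a, c, -, rfl⟩ := IsFractionRing.div_surjective (A := MvPolynomial (Fin 2) k) x
  exact div_mem (h1 a) (h1 c)

theorem surf_two {I : Ideal (MvPolynomial σ k)} {b : σ → ℤ} (hI : Graded I b) (hH : Hom I)
    {p : σ → k} (hp : On I p) (hp0 : ∀ i, b i ≠ 0 → p i = 0) (hpn : p ≠ 0) (hs : SmoothPt I p)
    {v v' : σ → k} (hv : TPos I b p v) (hv' : TPos I b p v')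
    (hvv : LinearIndependent k ![v, v']) : HasSurface I := by
  classical
  set L := FractionRing (MvPolynomial (Fin 2) k) with hL
  set u : Fin 2 → L := fun m => algebraMap (MvPolynomial (Fin 2) k) L (X m) with hu
  set w : σ → L := fun i => u 0 * algebraMap k L (v i) + u 1 * algebraMap k L (v' i) with hw
  have haev : ∀ f : MvPolynomial σ k, aeval (fun i => algebraMap k L (p i)) f = algebraMap k L (aeval p f) :=
    fun f => aeval_algebraMap_apply L p f
  have hwT : TPos I b (fun i => algebraMap k L (p i)) w := by
    constructor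
    · intro i hi
      simp only [hw]
      rw [hv.1 i hi, hv'.1 i hi, map_zero, mul_zero, mul_zero, add_zero]
    · intro f hf
      have e1 := congrArg (algebraMap k L) (hv.2 f hf)
      have e2 := congrArg (algebraMap k L) (hv'.2 f hf)
      rw [map_sum, map_zero] at e1 e2
      have e3 : ∑ i, aeval (fun i => algebraMap k L (p i)) (pderiv i f) * w i =
          u 0 * ∑ i, algebraMap k L (aeval p (pderiv i f) * v i) +
          u 1 * ∑ i, algebraMap k L (aeval p (pderiv i f) * v' i) := by
        rw [Finset.mul_sum, Finset.mul_sum, ← Finset.sum_add_distrib]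
        refine Finset.sum_congr rfl fun i _ => ?_
        rw [haev, map_mul, map_mul]
        simp only [hw]
        ring
      rw [e3, e1, e2]
      ring
  obtain ⟨z, hz0, hon, hvz⟩ := bb (K := k) (L := L) hI hp hp0 hs hwT
  obtain ⟨i0, hi0⟩ := Function.ne_iff.1 hpn
  have hpi : p i0 ≠ 0 := hi0
  have hb0 : b i0 = 0 := by
    by_contra hne
    exact hpi (hp0 i0 hne)
  have hz00 : z i0 = 0 := hz0 i0 hb0.le
  refine ⟨fun i => algebraMap k L (p i) + z i, hon, i0, ?_, ?_⟩
  · show algebraMap k L (p i0) + z i0 ≠ 0
    rw [hz00, add_zero]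
    exact (map_ne_zero (algebraMap k L)).2 hpi
  · set E := IntermediateField.adjoin k (Set.range fun j =>
      (algebraMap k L (p j) + z j) / (algebraMap k L (p i0) + z i0)) with hE
    have hpi' : algebraMap k L (p i0) ≠ 0 := (map_ne_zero (algebraMap k L)).2 hpi
    have hzE : ∀ j, z j ∈ E := by
      intro j
      have h1 : (algebraMap k L (p j) + z j) / (algebraMap k L (p i0) + z i0) ∈ E :=
        IntermediateField.subset_adjoin _ _ ⟨j, rfl⟩
      have h2 : z j = (algebraMap k L (p j) + z j) / (algebraMap k L (p i0) + z i0) * algebraMap k L (p i0)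
          - algebraMap k L (p j) := by
        rw [hz00, add_zero, div_mul_cancel₀ _ hpi']
        ring
      rw [h2]
      exact sub_mem (mul_mem h1 (E.algebraMap_mem _)) (E.algebraMap_mem _)
    have hle : IntermediateField.adjoin k (Set.range z) ≤ E := by
      rw [IntermediateField.adjoin_le_iff]
      rintro _ ⟨j, rfl⟩
      exact hzE j
    have hwE : ∀ i, w i ∈ E := fun i => hle (hvz i)
    obtain ⟨i, j, hij⟩ := exists_minor hvv
    have hD : algebraMap k L (v i * v' j - v j * v' i) ≠ 0 := (map_ne_zero (algebraMap k L)).2 hij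
    have hu0 : u 0 ∈ E := by
      have h1 : u 0 = (w i * algebraMap k L (v' j) - w j * algebraMap k L (v' i)) /
          algebraMap k L (v i * v' j - v j * v' i) := by
        rw [eq_div_iff hD, map_sub, map_mul, map_mul]
        simp only [hw]
        ring
      rw [h1]
      exact div_mem (sub_mem (mul_mem (hwE i) (E.algebraMap_mem _)) (mul_mem (hwE j) (E.algebraMap_mem _)))
        (E.algebraMap_mem _)
    have hu1 : u 1 ∈ E := by
      have h1 : u 1 = (w j * algebraMap k L (v i) - w i * algebraMap k L (v j)) /
          algebraMap k L (v i * v' j - v j * v' i) := by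
        rw [eq_div_iff hD, map_sub, map_mul, map_mul]
        simp only [hw]
        ring
      rw [h1]
      exact div_mem (sub_mem (mul_mem (hwE j) (E.algebraMap_mem _)) (mul_mem (hwE i) (E.algebraMap_mem _)))
        (E.algebraMap_mem _)
    refine top_of_vars fun m => ?_
    fin_cases m
    · exact hu0
    · exact hu1

end Pool.Agent.Helper97.GM
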