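import Pool.Agent.Helper97.GM.BB
import Pool.Agent.Helper97.GM.Graded
import Pool.Agent.Helper97.GM.SurfTwo

/-!
# A rational curve of fixed points with an attracting direction (Lueroth)
-/

set_option autoImplicit false

namespace Pool.Agent.Helper97.GM

open MvPolynomial

/-- Lueroth: a nontrivial subfield `E` of `k(s)` embeds in `k(u_0, u_1)` with image `k(u_0)`. -/
theorem exists_embedding {k : Type*} [Field k] {E : IntermediateField k (RatFunc k)} (hE : E ≠ ⊥) :
    ∃ (j : E →ₐ[k] FractionRing (MvPolynomial (Fin 2) k)) (g : E),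
      j g = algebraMap (MvPolynomial (Fin 2) k) (FractionRing (MvPolynomial (Fin 2) k)) (X 0) := by
  classical
  set L := FractionRing (MvPolynomial (Fin 2) k) with hL
  set φ : Polynomial k →ₐ[k] L := Polynomial.aeval (algebraMap (MvPolynomial (Fin 2) k) L (X 0))
    with hφ
  have hinj : Function.Injective φ := by
    have h1 : φ = (IsScalarTower.toAlgHom k (MvPolynomial (Fin 2) k) L).comp
        (Polynomial.aeval (X 0 : MvPolynomial (Fin 2) k)) := by
      ext
      simp [hφ]
    rw [h1]
    refine Function.Injective.comp (g := algebraMap (MvPolynomial (Fin 2) k) L)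
      (IsFractionRing.injective _ _) ?_
    have h2 : AlgebraicIndependent k (X : Fin 2 → MvPolynomial (Fin 2) k) :=
      MvPolynomial.algebraicIndependent_X (Fin 2) k
    have h3 : Transcendental k (X 0 : MvPolynomial (Fin 2) k) := h2.transcendental 0
    exact transcendental_iff_injective.1 h3
  refine ⟨(RatFunc.liftAlgHom φ (nonZeroDivisors_le_comap_nonZeroDivisors_of_injective _ hinj)).comp
    (RatFunc.Luroth.algEquiv hE).symm.toAlgHom, RatFunc.Luroth.algEquiv hE RatFunc.X, ?_⟩
  have h1 : (RatFunc.Luroth.algEquiv hE).symm (RatFunc.Luroth.algEquiv hE RatFunc.X) =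
      (RatFunc.X : RatFunc k) := AlgEquiv.symm_apply_apply _ _
  change (RatFunc.liftAlgHom φ (nonZeroDivisors_le_comap_nonZeroDivisors_of_injective _ hinj))
    ((RatFunc.Luroth.algEquiv hE).symm (RatFunc.Luroth.algEquiv hE RatFunc.X)) = _
  rw [h1]
  have h2 := RatFunc.liftAlgHom_apply_div φ
    (nonZeroDivisors_le_comap_nonZeroDivisors_of_injective _ hinj) (Polynomial.X : Polynomial k) 1
  simpa [hφ] using h2

variable {k : Type*} [Field k] {σ : Type*} [Fintype σ]

theorem surf_curve {I : Ideal (MvPolynomial σ k)} {b : σ → ℤ} (hI : Graded I b) (hH : Hom I)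
    {p : σ → RatFunc k} (hp : On I p) (hp0 : ∀ i, b i ≠ 0 → p i = 0) (hs : SmoothPt I p)
    {i₀ j₀ : σ} (hi : p i₀ ≠ 0) (hj : ∀ c : k, p j₀ / p i₀ ≠ algebraMap k (RatFunc k) c)
    {v : σ → RatFunc k} (hv : TPos I b p v) (hvn : v ≠ 0) : HasSurface I := by
  classical
  have hinv : (p i₀)⁻¹ ≠ 0 := inv_ne_zero hi
  set q : σ → RatFunc k := fun i => (p i₀)⁻¹ * p i with hq
  have hqon : On I q := on_smul hH _ hp
  have hqs : SmoothPt I q := smoothPt_smul hinv hs
  have hqv : TPos I b q v := tpos_smul hH hinv hv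
  have hqi : q i₀ = 1 := inv_mul_cancel₀ hi
  have hq0 : ∀ i, b i ≠ 0 → q i = 0 := fun i h => by simp only [hq]; rw [hp0 i h, mul_zero]
  have hbi : b i₀ = 0 := by
    by_contra h
    exact hi (hp0 i₀ h)
  set E : IntermediateField k (RatFunc k) := IntermediateField.adjoin k (Set.range q) with hE
  have hqE : ∀ i, q i ∈ E := fun i => IntermediateField.subset_adjoin _ _ ⟨i, rfl⟩
  have hEne : E ≠ ⊥ := by
    intro h
    have h1 := hqE j₀
    rw [h, IntermediateField.mem_bot] at h1
    obtain ⟨c, hc⟩ := h1
    apply hj c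
    rw [hc]
    simp only [hq]
    rw [div_eq_inv_mul]
  obtain ⟨j, g, hg⟩ := exists_embedding hEne
  set L := FractionRing (MvPolynomial (Fin 2) k) with hL
  letI : Algebra E L := j.toRingHom.toAlgebra
  haveI : IsScalarTower k E L := IsScalarTower.of_algebraMap_eq fun x => (j.commutes x).symm
  have hmap : ∀ x : E, algebraMap E L x = j x := fun _ => rfl
  set r : σ → E := fun i => ⟨q i, hqE i⟩ with hr
  have haev : ∀ f : MvPolynomial σ k, aeval q f = ((aeval r f : E) : RatFunc k) := fun f =>
    aeval_algebraMap_apply (RatFunc k) r f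
  have hron : On I r := by
    intro f hf
    have := hqon f hf
    rw [haev] at this
    exact_mod_cast this
  have hrs : SmoothPt I r := by
    obtain ⟨c, f, d, h, e, h1, h2, h3, h4, h5, h6⟩ := hqs
    refine ⟨c, f, d, h, e, h1, h2, h3, ?_, ?_, h6⟩
    · rw [Fintype.linearIndependent_iff] at h4 ⊢
      intro m hm l
      have h7 := h4 (fun l => (m l : RatFunc k)) (by
        funext i
        have h8 := congrFun hm i
        simp only [Finset.sum_apply, Pi.smul_apply, smul_eq_mul, Pi.zero_apply] at h8 ⊢
        have h9 := congrArg (fun x : E => (x : RatFunc k)) h8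
        push_cast at h9
        rw [← h9]
        refine Finset.sum_congr rfl fun l _ => ?_
        rw [haev]) l
      exact_mod_cast h7
    · intro h7
      apply h5
      rw [haev, h7]
      rfl
  obtain ⟨i₁, hi₁⟩ := Function.ne_iff.1 hvn
  have hi₁' : v i₁ ≠ 0 := hi₁
  obtain ⟨lam, hlam⟩ : ∃ lam : RatFunc k →ₗ[E] E, lam (v i₁) ≠ 0 := by
    by_contra hcon
    push Not at hcon
    exact hi₁' ((Module.forall_dual_apply_eq_zero_iff E (v i₁)).1 hcon)
  set t : σ → E := fun i => lam (v i) with ht
  have htT : TPos I b r t := by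
    constructor
    · intro i hi
      simp only [ht]
      rw [hqv.1 i hi, map_zero]
    · intro f hf
      have h1 := congrArg lam (hqv.2 f hf)
      rw [map_sum, map_zero] at h1
      rw [← h1]
      refine Finset.sum_congr rfl fun i _ => ?_
      simp only [ht]
      rw [haev, ← smul_eq_mul, ← map_smul]
      rfl
  set w : σ → L := fun i => algebraMap (MvPolynomial (Fin 2) k) L (X 1) * algebraMap E L (t i) with hw
  have haevL : ∀ f : MvPolynomial σ k, aeval (fun i => algebraMap E L (r i)) f =
      algebraMap E L (aeval r f) := fun f => aeval_algebraMap_apply L r f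
  have hwT : TPos I b (fun i => algebraMap E L (r i)) w := by
    constructor
    · intro i hi
      simp only [hw]
      rw [htT.1 i hi, map_zero, mul_zero]
    · intro f hf
      have h1 := congrArg (algebraMap E L) (htT.2 f hf)
      rw [map_sum, map_zero] at h1
      have h2 : ∑ i, aeval (fun i => algebraMap E L (r i)) (pderiv i f) * w i =
          algebraMap (MvPolynomial (Fin 2) k) L (X 1) *
            ∑ i, algebraMap E L (aeval r (pderiv i f) * t i) := by
        rw [Finset.mul_sum]
        refine Finset.sum_congr rfl fun i _ => ?_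
        rw [haevL, map_mul]
        simp only [hw]
        ring
      rw [h2, h1, mul_zero]
  have hr0 : ∀ i, b i ≠ 0 → r i = 0 := fun i h => Subtype.ext (hq0 i h)
  obtain ⟨z, hz0, hon, hwz⟩ := bb (K := E) (L := L) hI hron hr0 hrs hwT
  have hri : r i₀ = 1 := Subtype.ext hqi
  have hzi : z i₀ = 0 := hz0 i₀ hbi.le
  have hyi : algebraMap E L (r i₀) + z i₀ = 1 := by rw [hri, hzi, map_one, add_zero]
  refine ⟨fun i => algebraMap E L (r i) + z i, hon, i₀, by simp only; rw [hyi]; exact one_ne_zero, ?_⟩
  set F := IntermediateField.adjoin k (Set.range fun m =>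
    (algebraMap E L (r m) + z m) / (algebraMap E L (r i₀) + z i₀)) with hF
  have hyF : ∀ m, algebraMap E L (r m) + z m ∈ F := by
    intro m
    have h1 : (algebraMap E L (r m) + z m) / (algebraMap E L (r i₀) + z i₀) ∈ F :=
      IntermediateField.subset_adjoin _ _ ⟨m, rfl⟩
    rwa [hyi, div_one] at h1
  have hrF : ∀ m, algebraMap E L (r m) ∈ F := by
    intro m
    by_cases hm : b m = 0
    · have := hyF m
      rwa [hz0 m hm.le, add_zero] at this
    · rw [hr0 m hm, map_zero]
      exact zero_mem _
  have hzF : ∀ m, z m ∈ F := by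
    intro m
    have := sub_mem (hyF m) (hrF m)
    rwa [add_sub_cancel_left] at this
  have hEF : ∀ (x : RatFunc k) (hx : x ∈ E), algebraMap E L ⟨x, hx⟩ ∈ F := by
    intro x hx
    refine IntermediateField.adjoin_induction k (s := Set.range q)
      (p := fun x hx => algebraMap E L ⟨x, hx⟩ ∈ F) ?_ ?_ ?_ ?_ ?_ hx
    · rintro _ ⟨m, rfl⟩
      exact hrF m
    · intro c
      have h1 : algebraMap E L ⟨algebraMap k (RatFunc k) c, algebraMap_mem _ _⟩ = algebraMap k L c :=
        (IsScalarTower.algebraMap_apply k E L c).symm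
      rw [h1]
      exact F.algebraMap_mem c
    · intro x y hx hy h1 h2
      have h3 : (⟨x + y, add_mem hx hy⟩ : E) = ⟨x, hx⟩ + ⟨y, hy⟩ := rfl
      rw [h3, map_add]
      exact add_mem h1 h2
    · intro x hx h1
      have h3 : (⟨x⁻¹, inv_mem hx⟩ : E) = (⟨x, hx⟩ : E)⁻¹ := rfl
      rw [h3, map_inv₀]
      exact inv_mem h1
    · intro x y hx hy h1 h2
      have h3 : (⟨x * y, mul_mem hx hy⟩ : E) = ⟨x, hx⟩ * ⟨y, hy⟩ := rfl
      rw [h3, map_mul]
      exact mul_mem h1 h2
  have hwF : ∀ x ∈ IntermediateField.adjoin E (Set.range z), x ∈ F := by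
    intro x hx
    refine IntermediateField.adjoin_induction E (s := Set.range z)
      (p := fun x _ => x ∈ F) ?_ ?_ ?_ ?_ ?_ hx
    · rintro _ ⟨m, rfl⟩
      exact hzF m
    · intro c
      exact hEF c c.2
    · intro x y _ _ h1 h2
      exact add_mem h1 h2
    · intro x _ h1
      exact inv_mem h1
    · intro x y _ _ h1 h2
      exact mul_mem h1 h2
  have hu1 : algebraMap (MvPolynomial (Fin 2) k) L (X 1) ∈ F := by
    have h1 := hwF _ (hwz i₁)
    have h2 : algebraMap E L (t i₁) ≠ 0 := (map_ne_zero (algebraMap E L)).2 hlam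
    have h3 : algebraMap E L (t i₁) ∈ F := hEF _ (t i₁).2
    have h4 := div_mem h1 h3
    rwa [hw, mul_div_assoc, div_self h2, mul_one] at h4
  have hu0 : algebraMap (MvPolynomial (Fin 2) k) L (X 0) ∈ F := by
    rw [← hg]
    exact hEF _ g.2
  refine top_of_vars fun m => ?_
  fin_cases m
  · exact hu0
  · exact hu1

end Pool.Agent.Helper97.GM
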