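import Pool.Agent.Helper97.GM.Choice

/-!
# The attracting cell of a fixed smooth point
-/

set_option autoImplicit false

namespace Pool.Agent.Helper97.GM

open MvPolynomial

variable {k : Type*} [Field k] {σ : Type*} [Fintype σ]

/-- A family dual to linearly independent vectors. -/
theorem exists_dual_family {K : Type*} [Field K] {c : ℕ} {G : Fin c → σ → K}
    (hind : LinearIndependent K G) :
    ∃ S : Fin c → σ → K, ∀ i j, ∑ x, G i x * S j x = if i = j then 1 else 0 := by
  classical
  have h1 : ∀ j, ∃ φ : (σ → K) →ₗ[K] K, ∀ i, φ (G i) = if i = j then 1 else 0 := by
    intro j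
    let B := Module.Basis.span hind
    obtain ⟨φ, hφ⟩ := LinearMap.exists_extend (B.coord j)
    refine ⟨φ, fun i => ?_⟩
    have h2 : (⟨G i, Submodule.subset_span ⟨i, rfl⟩⟩ : Submodule.span K (Set.range G)) = B i := by
      exact (Module.Basis.span_apply hind i).symm
    have h3 : φ (G i) = B.coord j (B i) := by
      rw [← hφ, ← h2]
      rfl
    rw [h3, Module.Basis.coord_apply, Module.Basis.repr_self, Finsupp.single_apply]
  choose φ hφ using h1
  refine ⟨fun j x => φ j (Pi.single x 1), fun i j => ?_⟩
  rw [← hφ j i]
  conv_rhs => rw [← Finset.univ_sum_single (G i)]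
  rw [map_sum]
  refine Finset.sum_congr rfl fun x _ => ?_
  rw [show (Pi.single x (G i x) : σ → K) = G i x • Pi.single x 1 from ?_, map_smul, smul_eq_mul]
  rw [← Pi.single_smul, smul_eq_mul, mul_one]

/-- `p` a fixed smooth `K`-point, `v` a tangent vector with coordinates in `L`, of positive weights:
there is an `L`-point `p + z` of the zero locus of `I` from which `v` can be computed over `K`. -/
theorem bb {I : Ideal (MvPolynomial σ k)} {b : σ → ℤ} (hI : Graded I b) {K L : Type*} [Field K]
    [Field L] [Algebra k K] [Algebra k L] [Algebra K L] [IsScalarTower k K L] {p : σ → K}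
    (hp : On I p) (hp0 : ∀ i, b i ≠ 0 → p i = 0) (hs : SmoothPt I p) {v : σ → L}
    (hv : TPos I b (fun i => algebraMap K L (p i)) v) :
    ∃ z : σ → L, (∀ i, b i ≤ 0 → z i = 0) ∧ On I (fun i => algebraMap K L (p i) + z i) ∧
      ∀ i, v i ∈ IntermediateField.adjoin K (Set.range z) := by
  classical
  obtain ⟨c, g, w, hgI, hgw, hind, hspan⟩ := choice hI hp hs
  obtain ⟨S, hS⟩ := exists_dual_family hind
  set G : Fin c → σ → K := fun j i => aeval p (pderiv i (g j)) with hG
  set pL : σ → L := fun i => algebraMap K L (p i) with hpL
  have hG0 : ∀ j i, b i ≠ w j → G j i = 0 := fun j i hi => grad_weight (hgw j) hi hp0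
  have hpL0 : ∀ i, b i ≠ 0 → pL i = 0 := by
    intro i hi
    simp only [hpL, hp0 i hi, map_zero]
  have haev : ∀ f : MvPolynomial σ k, aeval pL f = algebraMap K L (aeval p f) := by
    intro f
    rw [hpL]
    exact (aeval_algebraMap_apply L p f)
  have hGL : ∀ j i, aeval pL (pderiv i (g j)) = algebraMap K L (G j i) := fun j i => haev _
  -- graded right inverse
  set S' : Fin c → σ → K := fun j i => if b i = w j then S j i else 0 with hS'
  have hS1 : ∀ i j, w i = w j → ∑ x, G i x * S' j x = if i = j then 1 else 0 := by
    intro i j hij
    rw [← hS i j]
    refine Finset.sum_congr rfl fun x _ => ?_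
    simp only [hS']
    split_ifs with h
    · rfl
    · have h6 : G i x = 0 := hG0 i x (by rw [hij]; exact h)
      have h7 : aeval p (pderiv x (g i)) = 0 := h6
      rw [h6, h7, zero_mul, zero_mul]
  -- induction
  have key : ∀ N : ℕ, ∃ z : σ → L, (∀ i, b i ≤ 0 → z i = 0) ∧ (∀ i, (N : ℤ) < b i → z i = 0) ∧
      (∀ j, w j ≤ N → aeval (fun i => pL i + z i) (g j) = 0) ∧
      (∀ i, b i ≤ N → v i ∈ IntermediateField.adjoin K (Set.range z)) := by
    intro N
    induction N with
    | zero =>
      refine ⟨fun _ => 0, fun _ _ => rfl, fun _ _ => rfl, fun j _ => ?_, fun i hi => ?_⟩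
      · simp only [add_zero]
        rw [haev, hp _ (hgI j), map_zero]
      · rw [hv.1 i (by simpa using hi)]
        exact zero_mem _
    | succ N ih =>
      obtain ⟨z, hz0, hzN, hzg, hzv⟩ := ih
      set a : Fin c → L := fun j => aeval (fun i => pL i + z i) (g j) with ha
      set dz : σ → L := fun i => if b i = (N : ℤ) + 1 then
        v i - ∑ j, (if w j = (N : ℤ) + 1 then a j * algebraMap K L (S' j i) else 0) else 0 with hdz
      have hdz0 : ∀ i, b i ≠ (N : ℤ) + 1 → dz i = 0 := by
        intro i hi
        simp only [hdz, if_neg hi]
      refine ⟨fun i => z i + dz i, ?_, ?_, ?_, ?_⟩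
      · intro i hi
        show z i + dz i = 0
        rw [hz0 i hi, hdz0 i (by omega), add_zero]
      · intro i hi
        push_cast at hi
        show z i + dz i = 0
        rw [hzN i (by omega), hdz0 i (by omega), add_zero]
      · intro j hj
        push_cast at hj
        have hd := diff (hgw j) (y := fun i => pL i + (z i + dz i)) (y' := fun i => pL i + z i)
          (fun i hi => by
            simp only [hpL0 i (by omega), hz0 i (by omega), hdz0 i (by omega), add_zero])
          (fun i hi => by simp only [hdz0 i (by omega), add_zero])
          (fun i hi => by simp only [hdz0 i (by omega), add_zero])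
        have hpart : part0 b (fun i => pL i + (z i + dz i)) = pL := by
          funext i
          unfold part0
          by_cases hi : b i = 0
          · rw [if_pos hi]
            show pL i + (z i + dz i) = pL i
            rw [hz0 i (by omega), hdz0 i (by omega), add_zero, add_zero]
          · rw [if_neg hi, hpL0 i hi]
        rw [hpart] at hd
        have hd2 : ∀ i, (pL i + (z i + dz i)) - (pL i + z i) = dz i := fun i => by ring
        simp only [hd2, hGL] at hd
        rw [sub_eq_iff_eq_add] at hd
        rw [hd]
        by_cases hj' : w j = (N : ℤ) + 1
        · -- the new weight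
          have h1 : ∑ i, algebraMap K L (G j i) * dz i
              = ∑ i, algebraMap K L (G j i) * v i
                - ∑ i, algebraMap K L (G j i) *
                  ∑ j', (if w j' = (N : ℤ) + 1 then a j' * algebraMap K L (S' j' i) else 0) := by
            rw [← Finset.sum_sub_distrib]
            refine Finset.sum_congr rfl fun i _ => ?_
            by_cases hi : b i = (N : ℤ) + 1
            · simp only [hdz, if_pos hi]
              ring
            · rw [hG0 j i (by omega)]
              simp
          have h2 : ∑ i, algebraMap K L (G j i) * v i = 0 := by
            have := hv.2 (g j) (hgI j)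
            simpa only [hGL] using this
          have h3 : ∑ i, algebraMap K L (G j i) *
                  ∑ j', (if w j' = (N : ℤ) + 1 then a j' * algebraMap K L (S' j' i) else 0)
              = a j := by
            simp only [Finset.mul_sum]
            rw [Finset.sum_comm]
            rw [Finset.sum_eq_single j]
            · have h4 := hS1 j j rfl
              rw [if_pos rfl] at h4
              have h5 : ∑ i, algebraMap K L (G j i) * algebraMap K L (S' j i) = 1 := by
                rw [← map_one (algebraMap K L), ← h4, map_sum]
                exact Finset.sum_congr rfl fun i _ => (map_mul _ _ _).symm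
              calc ∑ i, algebraMap K L (G j i) *
                    (if w j = (N : ℤ) + 1 then a j * algebraMap K L (S' j i) else 0)
                  = a j * ∑ i, algebraMap K L (G j i) * algebraMap K L (S' j i) := by
                    rw [Finset.mul_sum]
                    refine Finset.sum_congr rfl fun i _ => ?_
                    rw [if_pos hj']
                    ring
                _ = a j := by rw [h5, mul_one]
            · intro j' _ hne
              by_cases hw' : w j' = (N : ℤ) + 1
              · have h4 := hS1 j j' (by omega)
                rw [if_neg (Ne.symm hne)] at h4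
                have h5 : ∑ i, algebraMap K L (G j i) * algebraMap K L (S' j' i) = 0 := by
                  rw [← map_zero (algebraMap K L), ← h4, map_sum]
                  exact Finset.sum_congr rfl fun i _ => (map_mul _ _ _).symm
                calc ∑ i, algebraMap K L (G j i) *
                      (if w j' = (N : ℤ) + 1 then a j' * algebraMap K L (S' j' i) else 0)
                    = a j' * ∑ i, algebraMap K L (G j i) * algebraMap K L (S' j' i) := by
                      rw [Finset.mul_sum]
                      refine Finset.sum_congr rfl fun i _ => ?_
                      rw [if_pos hw']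
                      ring
                  _ = 0 := by rw [h5, mul_zero]
              · simp only [if_neg hw', mul_zero, Finset.sum_const_zero]
            · intro h
              exact absurd (Finset.mem_univ _) h
          rw [h1, h2, h3]
          simp only [ha]
          ring
        · -- old weights
          have h1 : ∑ i, algebraMap K L (G j i) * dz i = 0 := by
            refine Finset.sum_eq_zero fun i _ => ?_
            by_cases hi : b i = (N : ℤ) + 1
            · rw [hG0 j i (by omega), map_zero, zero_mul]
            · rw [hdz0 i hi, mul_zero]
          rw [h1, hzg j (by omega), add_zero]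
      · intro i hi
        push_cast at hi
        have hle : IntermediateField.adjoin K (Set.range z)
            ≤ IntermediateField.adjoin K (Set.range fun i => z i + dz i) := by
          rw [IntermediateField.adjoin_le_iff]
          rintro _ ⟨i', rfl⟩
          by_cases hi' : b i' = (N : ℤ) + 1
          · rw [hzN i' (by omega)]
            exact zero_mem _
          · apply IntermediateField.subset_adjoin
            exact ⟨i', by simp only [hdz0 i' hi', add_zero]⟩
        by_cases hi' : b i = (N : ℤ) + 1
        · have hzi : z i = 0 := hzN i (by omega)
          have hvi : v i = (z i + dz i)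
              + ∑ j, (if w j = (N : ℤ) + 1 then a j * algebraMap K L (S' j i) else 0) := by
            simp only [hdz, if_pos hi', hzi]
            ring
          rw [hvi]
          refine add_mem (IntermediateField.subset_adjoin _ _ ⟨i, rfl⟩) (sum_mem fun j _ => ?_)
          split_ifs
          · refine mul_mem (hle ?_) (IntermediateField.algebraMap_mem _ _)
            -- the value of a polynomial
            have hmem : ∀ i', pL i' + z i' ∈ IntermediateField.adjoin K (Set.range z) :=
              fun i' => add_mem (IntermediateField.algebraMap_mem _ _)
                (IntermediateField.subset_adjoin _ _ ⟨i', rfl⟩)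
            simp only [ha]
            rw [aeval_def, eval₂_eq']
            refine sum_mem fun m _ => mul_mem ?_ (prod_mem fun i' _ => pow_mem (hmem i') _)
            rw [IsScalarTower.algebraMap_apply k K L]
            exact IntermediateField.algebraMap_mem _ _
          · exact zero_mem _
        · exact hle (hzv i (by omega))
  -- all weights
  obtain ⟨z, hz0, -, hzg, hzv⟩ := key (∑ i, (b i).toNat)
  have hbN : ∀ i, b i ≤ ((∑ i, (b i).toNat : ℕ) : ℤ) := by
    intro i
    have h1 : (b i).toNat ≤ ∑ i, (b i).toNat :=
      Finset.single_le_sum (f := fun i => (b i).toNat) (fun _ _ => Nat.zero_le _)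
        (Finset.mem_univ i)
    omega
  refine ⟨z, hz0, ?_, fun i => hzv i (hbN i)⟩
  have hall : ∀ j, aeval (fun i => pL i + z i) (g j) = 0 := by
    intro j
    apply hzg
    obtain ⟨i, hi⟩ := Function.ne_iff.mp (hind.ne_zero j)
    have : b i = w j := by
      by_contra h
      exact hi (hG0 j i h)
    rw [← this]
    exact hbN i
  -- the curve through p
  have hon := cut hp hs (L := L) hgI hind hspan
    (y := fun i => Polynomial.C (pL i + z i) * Polynomial.X ^ (b i).toNat)
    (fun i => by
      rw [Polynomial.coeff_C_mul, Polynomial.coeff_X_pow]
      by_cases hi : b i ≤ 0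
      · have : (b i).toNat = 0 := by omega
        rw [this, if_pos rfl, mul_one, hz0 i hi, add_zero]
      · have : (b i).toNat ≠ 0 := by omega
        rw [if_neg (Ne.symm this), mul_zero]
        rw [hp0 i (by omega), map_zero])
    (fun j => by
      rw [aeval_tw (hgw j) (fun i hi => by rw [hpL0 i (by omega), hz0 i (by omega), add_zero]),
        hall j, map_zero, zero_mul])
  intro f hf
  have h1 := hon f hf
  have h2 := congrArg (fun q => ((Polynomial.aeval (1 : L)).restrictScalars k) q) h1
  simp only [map_zero] at h2
  rw [← h2]
  rw [show ((Polynomial.aeval (1 : L)).restrictScalars k)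
      ((aeval fun i => Polynomial.C (pL i + z i) * Polynomial.X ^ (b i).toNat) f)
      = (((Polynomial.aeval (1 : L)).restrictScalars k).comp
      (aeval fun i => Polynomial.C (pL i + z i) * Polynomial.X ^ (b i).toNat)) f from rfl,
    comp_aeval]
  have h3 : (fun i => ((Polynomial.aeval (1 : L)).restrictScalars k)
      (Polynomial.C (pL i + z i) * Polynomial.X ^ (b i).toNat)) = fun i => pL i + z i := by
    funext i
    simp
  rw [h3]

end Pool.Agent.Helper97.GM
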