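import Pool.Agent.Helper97.GM.Taylor

/-!
# Weight homogeneous equations near a fixed smooth point
-/

set_option autoImplicit false

namespace Pool.Agent.Helper97.GM

open MvPolynomial

variable {k : Type*} [Field k] {σ : Type*} [Fintype σ]

/-- The gradient at `p`. -/
private noncomputable def gr {K : Type*} [Field K] [Algebra k K] (p : σ → K)
    (f : MvPolynomial σ k) : σ → K := fun i => aeval p (pderiv i f)

private theorem gr_add {K : Type*} [Field K] [Algebra k K] (p : σ → K)
    (f g : MvPolynomial σ k) : gr p (f + g) = gr p f + gr p g := by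
  funext i; simp [gr]

private theorem gr_sum {K : Type*} [Field K] [Algebra k K] (p : σ → K) {ι : Type*}
    (s : Finset ι) (f : ι → MvPolynomial σ k) : gr p (∑ j ∈ s, f j) = ∑ j ∈ s, gr p (f j) := by
  funext i; simp [gr, Finset.sum_apply]

private theorem gr_mul {K : Type*} [Field K] [Algebra k K] {p : σ → K}
    (h : MvPolynomial σ k) {g : MvPolynomial σ k} (hg : aeval p g = 0) :
    gr p (h * g) = aeval p h • gr p g := by
  funext i
  simp only [gr, Derivation.leibniz, smul_eq_mul, map_add, map_mul, hg, zero_mul, add_zero,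
    Pi.smul_apply]

private theorem gr_mem {I : Ideal (MvPolynomial σ k)} {K : Type*} [Field K]
    [Algebra k K] {p : σ → K} (hp : On I p) {c : ℕ} {f : Fin c → MvPolynomial σ k}
    {h : MvPolynomial σ k} (hf : ∀ j, f j ∈ I) (hh : aeval p h ≠ 0)
    (hI : ∀ g ∈ I, h * g ∈ Ideal.span (Set.range f)) {g : MvPolynomial σ k} (hg : g ∈ I) :
    gr p g ∈ Submodule.span K (Set.range fun j => gr p (f j)) := by
  obtain ⟨a, ha⟩ := (Ideal.mem_span_range_iff_exists_fun).1 (hI g hg)
  have h1 : aeval p h • gr p g = ∑ j, aeval p (a j) • gr p (f j) := by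
    rw [← gr_mul h (hp g hg), ← ha, gr_sum]
    exact Finset.sum_congr rfl fun j _ => gr_mul (a j) (hp _ (hf j))
  have h2 : gr p g = (aeval p h)⁻¹ • ∑ j, aeval p (a j) • gr p (f j) := by
    rw [← h1, smul_smul, inv_mul_cancel₀ hh, one_smul]
  rw [h2]
  refine Submodule.smul_mem _ _ (Submodule.sum_mem _ fun j _ => Submodule.smul_mem _ _ ?_)
  exact Submodule.subset_span ⟨j, rfl⟩

/-- Weight homogeneous elements `g_j` of `I` with independent gradients at the smooth point `p`, which
span the gradients of all elements of `I` (and cut out the zero locus of `I` near `p`). -/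
theorem choice {I : Ideal (MvPolynomial σ k)} {b : σ → ℤ} (hI : Graded I b) {K : Type*} [Field K]
    [Algebra k K] {p : σ → K} (hp : On I p) (hs : SmoothPt I p) :
    ∃ (c : ℕ) (g : Fin c → MvPolynomial σ k) (w : Fin c → ℤ), (∀ j, g j ∈ I) ∧
      (∀ j, IsWeightedHomogeneous b (g j) (w j)) ∧
      LinearIndependent K (fun j => fun i => aeval p (pderiv i (g j))) ∧
      (∀ f ∈ I, (fun i => aeval p (pderiv i f)) ∈
        Submodule.span K (Set.range (fun j => fun i => aeval p (pderiv i (g j))))) := by
  obtain ⟨c, f, d, h, e, hf, -, -, -, hh, hI2⟩ := hs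
  let S : Set (σ → K) := {v | ∃ g ∈ I, (∃ w : ℤ, IsWeightedHomogeneous b g w) ∧ gr p g = v}
  have hS : ∀ g ∈ I, gr p g ∈ Submodule.span K S := by
    intro g hg
    have h0 : g = ∑ w ∈ (weightedHomogeneousComponent_finsupp (w := b) g).toFinset,
        weightedHomogeneousComponent b w g := by
      conv_lhs => rw [← sum_weightedHomogeneousComponent b g]
      exact finsum_eq_sum _ _
    rw [h0, gr_sum]
    refine Submodule.sum_mem _ fun w _ => Submodule.subset_span ?_
    exact ⟨_, hI g hg w, ⟨w, weightedHomogeneousComponent_isWeightedHomogeneous w g⟩, rfl⟩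
  obtain ⟨B, hBS, hBsp, hBli⟩ := exists_linearIndependent K S
  have hfin : B.Finite := hBli.setFinite
  haveI : Fintype B := hfin.fintype
  let eB := (Fintype.equivFin B).symm
  have hch : ∀ j, ∃ g ∈ I, (∃ w : ℤ, IsWeightedHomogeneous b g w) ∧ gr p g = ((eB j : B) : σ → K) :=
    fun j => hBS (eB j).2
  choose g hg hw hgr using hch
  choose w hw using hw
  have hfun : (fun j => fun i => aeval p (pderiv i (g j))) = fun j => ((eB j : B) : σ → K) := by
    funext j; exact hgr j
  refine ⟨Fintype.card B, g, w, hg, hw, ?_, ?_⟩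
  · rw [hfun]
    exact hBli.comp eB eB.injective
  · intro q hq
    have h3 : Set.range (fun j => fun i => aeval p (pderiv i (g j))) = B := by
      rw [hfun]
      ext v
      constructor
      · rintro ⟨j, rfl⟩; exact (eB j).2
      · intro hv; exact ⟨eB.symm ⟨v, hv⟩, by simp⟩
    rw [h3, hBsp]
    exact hS q hq

/-- Elements `g_j` of `I` as in `choice` cut out the zero locus of `I` near `p`: a formal curve
(polynomial in `t`, over an extension `L` of `K`) through `p` on which the `g_j` vanish lies in it. -/
theorem cut {I : Ideal (MvPolynomial σ k)} {K L : Type*} [Field K] [Field L] [Algebra k K]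
    [Algebra k L] [Algebra K L] [IsScalarTower k K L] {p : σ → K} (hp : On I p) (hs : SmoothPt I p)
    {c : ℕ} {g : Fin c → MvPolynomial σ k} (hg : ∀ j, g j ∈ I)
    (hind : LinearIndependent K (fun j => fun i => aeval p (pderiv i (g j))))
    (hspan : ∀ f ∈ I, (fun i => aeval p (pderiv i f)) ∈
        Submodule.span K (Set.range (fun j => fun i => aeval p (pderiv i (g j)))))
    {y : σ → Polynomial L} (hy : ∀ i, (y i).coeff 0 = algebraMap K L (p i))
    (hy0 : ∀ j, aeval y (g j) = 0) : On I y := by
  obtain ⟨c', f, d, h, e, hf, -, -, hfind, hh, hI2⟩ := hs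
  have hcc : c = c' := by
    have h1 : Submodule.span K (Set.range fun j => gr p (g j)) =
        Submodule.span K (Set.range fun j => gr p (f j)) := by
      apply le_antisymm
      · rw [Submodule.span_le]
        rintro _ ⟨j, rfl⟩
        exact gr_mem hp hf hh hI2 (hg j)
      · rw [Submodule.span_le]
        rintro _ ⟨j, rfl⟩
        exact hspan _ (hf j)
    have h2 := finrank_span_eq_card (R := K) (b := fun j => gr p (g j)) hind
    have h3 := finrank_span_eq_card (R := K) (b := fun j => gr p (f j)) hfind
    rw [h1, h3] at h2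
    simpa using h2.symm
  subst hcc
  -- the constant term
  have hct : ∀ q : MvPolynomial σ k,
      Polynomial.constantCoeff (aeval y q) = algebraMap K L (aeval p q) := by
    intro q
    have : (Polynomial.constantCoeff (R := L)).comp (aeval (R := k) y).toRingHom =
        (algebraMap K L).comp (aeval (R := k) p).toRingHom := by
      apply MvPolynomial.ringHom_ext
      · intro r
        simp only [AlgHom.toRingHom_eq_coe, RingHom.coe_comp, RingHom.coe_coe, Function.comp_apply,
          algHom_C]
        rw [← IsScalarTower.algebraMap_apply k K L]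
        rw [IsScalarTower.algebraMap_apply k L (Polynomial L)]
        simp
      · intro i
        simp [hy]
    exact congrArg (fun φ => φ q) this
  -- the matrix
  have hA : ∀ j, ∃ a : Fin c → MvPolynomial σ k, ∑ i, a i * f i = h * g j := fun j => by
    obtain ⟨a, ha⟩ := (Ideal.mem_span_range_iff_exists_fun).1 (hI2 _ (hg j))
    exact ⟨a, ha⟩
  choose a ha using hA
  let A : Matrix (Fin c) (Fin c) (MvPolynomial σ k) := Matrix.of a
  have hdetp : (A.map (aeval (R := k) p)).det ≠ 0 := by
    intro h0
    obtain ⟨r, hr, hr0⟩ := Matrix.exists_vecMul_eq_zero_iff.2 h0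
    apply hr
    have h4 : ∑ j, (r j * aeval p h) • gr p (g j) = 0 := by
      have h5 : ∀ j, (r j * aeval p h) • gr p (g j) = r j • ∑ i, aeval p (a j i) • gr p (f i) := by
        intro j
        rw [mul_smul, ← gr_mul h (hp _ (hg j)), ← ha j, gr_sum]
        congr 1
        exact Finset.sum_congr rfl fun i _ => gr_mul (a j i) (hp _ (hf i))
      rw [Finset.sum_congr rfl fun j _ => h5 j]
      simp only [Finset.smul_sum, smul_smul]
      rw [Finset.sum_comm]
      refine Finset.sum_eq_zero fun i _ => ?_
      rw [← Finset.sum_smul]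
      have h6 := congrFun hr0 i
      simp only [Matrix.vecMul, dotProduct, Matrix.map_apply, Pi.zero_apply] at h6
      have h7 : ∑ j, r j * aeval p (a j i) = 0 := h6
      rw [h7, zero_smul]
    have h8 := (Fintype.linearIndependent_iff.1 hind) (fun j => r j * aeval p h) h4
    funext j
    exact (mul_eq_zero.1 (h8 j)).resolve_right hh
  have hdet : (A.map (aeval (R := k) y)).det ≠ 0 := by
    intro h0
    apply hdetp
    have h1 := congrArg (Polynomial.constantCoeff (R := L)) h0
    rw [map_zero, RingHom.map_det] at h1
    have h2 : (Polynomial.constantCoeff (R := L)).mapMatrix (A.map (aeval (R := k) y)) =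
        (algebraMap K L).mapMatrix (A.map (aeval (R := k) p)) := by
      ext i j
      simp only [RingHom.mapMatrix_apply, Matrix.map_apply]
      exact hct _
    rw [h2, ← RingHom.map_det] at h1
    exact (map_eq_zero (algebraMap K L)).1 h1
  have hv : (A.map (aeval (R := k) y)).mulVec (fun i => aeval y (f i)) = 0 := by
    funext j
    simp only [Matrix.mulVec, dotProduct, Matrix.map_apply, Pi.zero_apply]
    have h1 : ∑ i, aeval y (a j i) * aeval y (f i) = 0 := by
      have h2 := congrArg (aeval y) (ha j)
      rw [map_sum, map_mul, hy0 j, mul_zero] at h2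
      simpa [map_mul] using h2
    exact h1
  have hf0 := Matrix.eq_zero_of_mulVec_eq_zero hdet hv
  have hhy : aeval y h ≠ 0 := by
    intro h0
    have h1 := hct h
    rw [h0, map_zero] at h1
    exact hh ((map_eq_zero (algebraMap K L)).1 h1.symm)
  intro q hq
  obtain ⟨u, hu⟩ := (Ideal.mem_span_range_iff_exists_fun).1 (hI2 q hq)
  have h1 := congrArg (aeval y) hu
  rw [map_sum, map_mul] at h1
  have h2 : ∑ i, aeval y (u i * f i) = 0 := Finset.sum_eq_zero fun i _ => by
    rw [map_mul, congrFun hf0 i, Pi.zero_apply, mul_zero]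
  rw [h2] at h1
  exact (mul_eq_zero.1 h1.symm).resolve_left hhy

end Pool.Agent.Helper97.GM
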