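import Pool.Agent.Helper97.GM.Setup

/-!
# Rational curves which are not pointwise fixed
-/

set_option autoImplicit false

namespace Pool.Agent.Helper97.GM

open MvPolynomial

variable {k : Type*} [Field k] {σ : Type*} [Fintype σ] {I : Ideal (MvPolynomial σ k)} {a : σ → ℤ}

/-- The binomial relation between three coordinates of the points of an orbit. -/
private theorem binom {c t xl x1 x0 : k} (ht : t ≠ 0) {al α β : ℤ} {m e e' : ℕ}
    (he : (e : ℤ) = al - α) (he' : (e' : ℤ) = β - al) (hm : m = e + e') :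
    (c * (t ^ al * xl)) ^ m * (x1 ^ e * x0 ^ e') =
      xl ^ m * ((c * (t ^ β * x1)) ^ e * (c * (t ^ α * x0)) ^ e') := by
  have ht2 : (t ^ al) ^ m = (t ^ β) ^ e * (t ^ α) ^ e' := by
    rw [← zpow_natCast, ← zpow_natCast, ← zpow_natCast, ← zpow_mul, ← zpow_mul, ← zpow_mul,
      ← zpow_add₀ ht]
    congr 1
    rw [hm, Nat.cast_add, he, he']
    ring
  have hc : c ^ m = c ^ e * c ^ e' := by rw [hm, pow_add]
  rw [mul_pow, mul_pow, mul_pow, mul_pow, mul_pow, mul_pow, ht2, hc]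
  ring

/-- the part of the curve over the points where the lowest coordinate does not vanish -/
private theorem half [IsAlgClosed k] (h : Setup I a) {Y : σ → Polynomial k}
    (hY : ∀ s : k, On I (fun i => (Y i).eval s)) {α : ℤ} {i₀ i₁ : σ} (hi₀ : a i₀ = α)
    (hlow : ∀ i, a i < α → Y i = 0) (hi₁ : a i₁ ≠ α) (hY₀ : Y i₀ ≠ 0) (hY₁ : Y i₁ ≠ 0)
    {s' : k} (h0 : (Y i₀).eval s' ≠ 0) (h1 : (Y i₁).eval s' ≠ 0) {s : k}
    (hs : (Y i₀).eval s ≠ 0) :
    Orb a (fun i => (Y i).eval s') (fun i => (Y i).eval s) ∨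
      (Prp (wt a α (fun i => (Y i).eval s')) (fun i => (Y i).eval s) ∧
        ∀ i, a i ≠ α → (Y i).eval s = 0) := by
  have hle : ∀ (r : k) (i : σ), (Y i).eval r ≠ 0 → α ≤ a i := by
    intro r i hr
    by_contra hcon
    rw [hlow i (not_le.1 hcon), Polynomial.eval_zero] at hr
    exact hr rfl
  have hp : Prp (wt a α (fun i => (Y i).eval s')) (wt a α (fun i => (Y i).eval s)) := by
    refine ⟨(Y i₀).eval s / (Y i₀).eval s', div_ne_zero hs h0, fun i => ?_⟩
    unfold wt
    by_cases hi : a i = α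
    · rw [if_pos hi, if_pos hi]
      obtain ⟨c, hc⟩ := h.lim_const hY hlow hi₀ hY₀ ⟨i₁, hi₁, hY₁⟩ hi
      simp only [hc, Polynomial.eval_mul, Polynomial.eval_C]
      field_simp
    · rw [if_neg hi, if_neg hi, mul_zero]
  by_cases hf : ∃ i, a i ≠ α ∧ (Y i).eval s ≠ 0
  · exact Or.inl (h.orb (hY s') (hY s) ⟨hle s', i₀, hi₀, h0⟩ ⟨hle s, i₀, hi₀, hs⟩ hp
      ⟨i₁, hi₁, h1⟩ hf)
  · push Not at hf
    refine Or.inr ⟨?_, hf⟩
    have : wt a α (fun i => (Y i).eval s) = fun i => (Y i).eval s := by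
      funext i
      unfold wt
      by_cases hi : a i = α
      · rw [if_pos hi]
      · rw [if_neg hi, hf i hi]
    rwa [this] at hp

/-- A rational curve which is not pointwise fixed is the closure of an orbit. -/
theorem Setup.curve [IsAlgClosed k] (h : Setup I a) {Y : σ → Polynomial k}
    (hY : ∀ s : k, On I (fun i => (Y i).eval s)) (hY0 : ∀ s : k, (fun i => (Y i).eval s) ≠ 0)
    (hne : ∃ i j, Y i ≠ 0 ∧ Y j ≠ 0 ∧ a i ≠ a j) :
    ∃ (x : σ → k) (α β : ℤ), On I x ∧ IsLow a x α ∧ IsLow (fun i => - a i) x (-β) ∧ α < β ∧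
      ∀ s : k, Orb a x (fun i => (Y i).eval s) ∨ Prp (wt a α x) (fun i => (Y i).eval s) ∨
        Prp (wt a β x) (fun i => (Y i).eval s) := by
  classical
  obtain ⟨ia, ja, hYia, hYja, haa⟩ := hne
  set W : Finset ℤ := (Finset.univ.filter fun i : σ => Y i ≠ 0).image a with hW
  have hW1 : ∀ i, Y i ≠ 0 → a i ∈ W := fun i hi =>
    Finset.mem_image.2 ⟨i, Finset.mem_filter.2 ⟨Finset.mem_univ _, hi⟩, rfl⟩
  have hWne : W.Nonempty := ⟨a ia, hW1 ia hYia⟩
  set α := W.min' hWne with hα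
  set β := W.max' hWne with hβ
  have hall : ∀ i, Y i ≠ 0 → α ≤ a i ∧ a i ≤ β := fun i hi =>
    ⟨W.min'_le _ (hW1 i hi), W.le_max' _ (hW1 i hi)⟩
  have hαβ : α < β := by
    have h1 := hall ia hYia
    have h2 := hall ja hYja
    rcases lt_or_gt_of_ne haa with h3 | h3 <;> omega
  obtain ⟨i₀, hi₀1, hi₀2⟩ := Finset.mem_image.1 (W.min'_mem hWne)
  obtain ⟨i₁, hi₁1, hi₁2⟩ := Finset.mem_image.1 (W.max'_mem hWne)
  have hYi₀ : Y i₀ ≠ 0 := (Finset.mem_filter.1 hi₀1).2
  have hYi₁ : Y i₁ ≠ 0 := (Finset.mem_filter.1 hi₁1).2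
  have hi₀ : a i₀ = α := hi₀2
  have hi₁ : a i₁ = β := hi₁2
  have hlow : ∀ i, a i < α → Y i = 0 := by
    intro i hi
    by_contra hcon
    have := (hall i hcon).1
    omega
  have hhigh : ∀ i, - a i < - β → Y i = 0 := by
    intro i hi
    by_contra hcon
    have := (hall i hcon).2
    omega
  obtain ⟨s', hs'⟩ : ∃ s' : k, (Y i₀ * Y i₁).eval s' ≠ 0 := by
    by_contra hcon
    push Not at hcon
    exact mul_ne_zero hYi₀ hYi₁ (Polynomial.funext fun r => by rw [hcon r, Polynomial.eval_zero])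
  rw [Polynomial.eval_mul] at hs'
  have h0 := left_ne_zero_of_mul hs'
  have h1 := right_ne_zero_of_mul hs'
  have hev : ∀ (r : k) (i : σ), (Y i).eval r ≠ 0 → Y i ≠ 0 := by
    intro r i hr h0
    rw [h0, Polynomial.eval_zero] at hr
    exact hr rfl
  refine ⟨fun i => (Y i).eval s', α, β, hY s', ⟨fun i hi => (hall i (hev s' i hi)).1, i₀, hi₀, h0⟩,
    ⟨fun i hi => neg_le_neg (hall i (hev s' i hi)).2, i₁, congrArg Neg.neg hi₁, h1⟩, hαβ,
    fun s => ?_⟩
  by_cases hs0 : (Y i₀).eval s ≠ 0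
  · rcases half h hY hi₀ hlow (by omega : a i₁ ≠ α) hYi₀ hYi₁ h0 h1 hs0 with h2 | h2
    · exact Or.inl h2
    · exact Or.inr (Or.inl h2.1)
  by_cases hs1 : (Y i₁).eval s ≠ 0
  · rcases half h.neg hY (α := -β) (i₀ := i₁) (i₁ := i₀) (congrArg Neg.neg hi₁) hhigh
      (by simp only [neg_inj, ne_eq]; omega) hYi₁ hYi₀ h1 h0 hs1 with h2 | h2
    · exact Or.inl (by
        obtain ⟨c, t, hc, ht, h2⟩ := h2
        refine ⟨c, t⁻¹, hc, inv_ne_zero ht, fun i => ?_⟩
        rw [h2 i, inv_zpow, zpow_neg])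
    · refine Or.inr (Or.inr ?_)
      have e : wt (fun i => - a i) (-β) (fun i => (Y i).eval s') = wt a β (fun i => (Y i).eval s') := by
        funext i
        unfold wt
        simp only [neg_inj]
      rw [← e]
      exact h2.1
  · exfalso
    push Not at hs0 hs1
    apply hY0 s
    funext l
    rw [Pi.zero_apply]
    by_cases hl : Y l = 0
    · rw [hl, Polynomial.eval_zero]
    obtain ⟨hl1, hl2⟩ := hall l hl
    obtain ⟨e, he⟩ := Int.eq_ofNat_of_zero_le (by omega : 0 ≤ a l - α)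
    obtain ⟨e', he'⟩ := Int.eq_ofNat_of_zero_le (by omega : 0 ≤ β - a l)
    have hid : (Y l ^ (e + e') * Polynomial.C ((Y i₁).eval s' ^ e * (Y i₀).eval s' ^ e') -
        Polynomial.C ((Y l).eval s' ^ (e + e')) * (Y i₁ ^ e * Y i₀ ^ e')) * (Y i₀ * Y i₁) = 0 := by
      apply Polynomial.funext
      intro r
      rw [Polynomial.eval_zero, Polynomial.eval_mul]
      by_cases hr : (Y i₀ * Y i₁).eval r = 0
      · rw [hr, mul_zero]
      rw [Polynomial.eval_mul] at hr
      have hr0 := left_ne_zero_of_mul hr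
      have hr1 := right_ne_zero_of_mul hr
      have horb : Orb a (fun i => (Y i).eval s') (fun i => (Y i).eval r) := by
        rcases half h hY hi₀ hlow (by omega : a i₁ ≠ α) hYi₀ hYi₁ h0 h1 hr0 with h2 | h2
        · exact h2
        · exact absurd (h2.2 i₁ (by omega)) hr1
      obtain ⟨c, t, hc, ht, horb⟩ := horb
      have b1 := horb l
      have b2 := horb i₁
      have b3 := horb i₀
      simp only at b1 b2 b3
      rw [hi₁] at b2
      rw [hi₀] at b3
      have hb := binom (c := c) (xl := (Y l).eval s') (x1 := (Y i₁).eval s') (x0 := (Y i₀).eval s')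
        ht he.symm he'.symm rfl
      rw [← b1, ← b2, ← b3] at hb
      simp only [Polynomial.eval_sub, Polynomial.eval_mul, Polynomial.eval_pow, Polynomial.eval_C]
      rw [hb, sub_self, zero_mul]
    have hid2 := (mul_eq_zero.1 hid).resolve_right (mul_ne_zero hYi₀ hYi₁)
    have hid3 := congrArg (Polynomial.eval s) hid2
    simp only [Polynomial.eval_sub, Polynomial.eval_mul, Polynomial.eval_pow, Polynomial.eval_C,
      Polynomial.eval_zero, hs0, hs1] at hid3
    have hpos : 0 < e + e' := by omega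
    have hz : (0 : k) ^ e * 0 ^ e' = 0 := by
      rw [← pow_add, zero_pow hpos.ne']
    rw [hz, mul_zero, sub_zero, mul_eq_zero] at hid3
    rcases hid3 with h3 | h3
    · exact eq_zero_of_pow_eq_zero h3
    · exact absurd h3 (mul_ne_zero (pow_ne_zero _ h1) (pow_ne_zero _ h0))

end Pool.Agent.Helper97.GM
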