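import Mathlib

/-!
# Rational surfaces in varieties with an action of the multiplicative group: definitions

`I` is an ideal of `k[x_i]`, the ideal of the (cone over the) variety `X`.
-/

set_option autoImplicit false

namespace Pool.Agent.Helper97.GM

open MvPolynomial

variable {k : Type*} [Field k] {σ : Type*}

/-- The point `x` with coordinates in the `k`-algebra `L` lies in the zero locus of `I`. -/
def On (I : Ideal (MvPolynomial σ k)) {L : Type*} [CommRing L] [Algebra k L] (x : σ → L) : Prop :=
  ∀ f ∈ I, aeval x f = 0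

/-- `I` is graded for the weights `b`. -/
def Graded (I : Ideal (MvPolynomial σ k)) (b : σ → ℤ) : Prop :=
  ∀ f ∈ I, ∀ w : ℤ, weightedHomogeneousComponent b w f ∈ I

/-- `I` is homogeneous (graded for the degree). -/
def Hom (I : Ideal (MvPolynomial σ k)) : Prop :=
  ∀ f ∈ I, ∀ d : ℕ, homogeneousComponent d f ∈ I

/-- Near `x` the zero locus of `I` is cut out by `c` forms in `I` whose differentials at `x` are
linearly independent. -/
def SmoothPt (I : Ideal (MvPolynomial σ k)) {K : Type*} [Field K] [Algebra k K] (x : σ → K) : Prop :=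
  ∃ (c : ℕ) (f : Fin c → MvPolynomial σ k) (d : Fin c → ℕ) (h : MvPolynomial σ k) (e : ℕ),
    (∀ j, f j ∈ I) ∧ (∀ j, (f j).IsHomogeneous (d j)) ∧ h.IsHomogeneous e ∧
    LinearIndependent K (fun j => fun i => aeval x (pderiv i (f j))) ∧ aeval x h ≠ 0 ∧
    ∀ g ∈ I, h * g ∈ Ideal.span (Set.range f)

/-- The part of weight `0`. -/
def part0 (b : σ → ℤ) {L : Type*} [CommRing L] (y : σ → L) : σ → L :=
  fun i => if b i = 0 then y i else 0

/-- `v` is a tangent vector at `p` whose components of weight `≤ 0` vanish. -/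
def TPos [Fintype σ] (I : Ideal (MvPolynomial σ k)) (b : σ → ℤ) {K : Type*} [CommRing K]
    [Algebra k K] (p v : σ → K) : Prop :=
  (∀ i, b i ≤ 0 → v i = 0) ∧ ∀ f ∈ I, ∑ i, aeval p (pderiv i f) * v i = 0

/-- The zero locus of `I` contains a rational surface. -/
def HasSurface {k : Type*} [Field k] (I : Ideal (MvPolynomial σ k)) : Prop :=
  ∃ y : σ → FractionRing (MvPolynomial (Fin 2) k), On I y ∧
    ∃ i, y i ≠ 0 ∧ IntermediateField.adjoin k (Set.range fun j => y j / y i) = ⊤

end Pool.Agent.Helper97.GM
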