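import Pool.Agent.Helper97.GM.Setup

/-!
# The closure of an orbit has dimension at most one
-/

set_option autoImplicit false

namespace Pool.Agent.Helper97.GM

open MvPolynomial

variable {k : Type*} [Field k] {σ : Type*} [Fintype σ] {I : Ideal (MvPolynomial σ k)} {a : σ → ℤ}

/-- the parametrisation of the cone over the orbit -/
private noncomputable def par (a : σ → ℤ) (μ : ℤ) (x₀ : σ → k) :
    MvPolynomial σ k →ₐ[k] MvPolynomial (Fin 2) k :=
  aeval fun i => C (x₀ i) * X 0 * X 1 ^ (a i - μ).toNat

omit [Fintype σ] in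
private lemma eval_par (μ : ℤ) (x₀ : σ → k) (c t : k) (f : MvPolynomial σ k) :
    eval ![c, t] (par a μ x₀ f) = aeval (fun i => x₀ i * c * t ^ (a i - μ).toNat) f := by
  have h1 : (eval ![c, t]).comp (par a μ x₀).toRingHom =
      (aeval (fun i => x₀ i * c * t ^ (a i - μ).toNat) : MvPolynomial σ k →ₐ[k] k).toRingHom := by
    apply MvPolynomial.ringHom_ext
    · intro b
      simp
    · intro j
      simp [par]
  have h2 := DFunLike.congr_fun h1 f
  simpa using h2

omit [Fintype σ] in
private lemma eval_curve (M : ℤ) (x₀ : σ → k) (c t : k) (f : MvPolynomial σ k) :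
    (aeval (fun i => Polynomial.C (x₀ i * c) * Polynomial.X ^ (M - a i).toNat) f :
      Polynomial k).eval t = aeval (fun i => x₀ i * c * t ^ (M - a i).toNat) f := by
  have h1 : (Polynomial.evalRingHom t).comp
      (aeval (fun i => Polynomial.C (x₀ i * c) * Polynomial.X ^ (M - a i).toNat) :
        MvPolynomial σ k →ₐ[k] Polynomial k).toRingHom =
      (aeval (fun i => x₀ i * c * t ^ (M - a i).toNat) : MvPolynomial σ k →ₐ[k] k).toRingHom := by
    apply MvPolynomial.ringHom_ext
    · intro b
      simp
    · intro j
      simp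
  have h2 := DFunLike.congr_fun h1 f
  simpa using h2

private lemma ker_le [IsAlgClosed k] (hP : I.IsPrime) {x₀ : σ → k} {μ M : ℤ}
    (hμ : IsLow a x₀ μ) (hM : IsLow (fun i => - a i) x₀ (-M))
    (hS : ∀ x : σ → k, x ≠ 0 → On I x →
      Orb a x₀ x ∨ Prp (wt a μ x₀) x ∨ Prp (wt a M x₀) x)
    {f : MvPolynomial σ k} (hf : par a μ x₀ f = 0) : f ∈ I := by
  have hlow : ∀ i, x₀ i ≠ 0 → μ ≤ a i := hμ.1
  have hhigh : ∀ i, x₀ i ≠ 0 → a i ≤ M := fun i hi => by
    have := hM.1 i hi
    linarith
  have hev : ∀ c t : k, aeval (fun i => x₀ i * c * t ^ (a i - μ).toNat) f = 0 := fun c t => by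
    rw [← eval_par, hf, map_zero]
  apply mem_of_vanish hP
  intro x hx
  by_cases hx0 : x = 0
  · have h1 := hev 0 0
    have e : (fun i => x₀ i * 0 * (0 : k) ^ (a i - μ).toNat) = x := by
      rw [hx0]
      funext i
      simp
    rwa [e] at h1
  rcases hS x hx0 hx with ⟨c, t, hc, ht, h⟩ | ⟨c, hc, h⟩ | ⟨c, hc, h⟩
  · have h1 := hev (c * t ^ μ) t
    have e : (fun i => x₀ i * (c * t ^ μ) * t ^ (a i - μ).toNat) = x := by
      funext i
      rw [h i]
      by_cases h0 : x₀ i = 0
      · rw [h0]
        ring
      · have h2 : t ^ (a i - μ).toNat = t ^ (a i - μ) := by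
          rw [← zpow_natCast, Int.toNat_of_nonneg (by linarith [hlow i h0])]
        rw [h2]
        have h3 : t ^ a i = t ^ μ * t ^ (a i - μ) := by
          rw [← zpow_add₀ ht]
          congr 1
          ring
        rw [h3]
        ring
    rwa [e] at h1
  · have h1 := hev c 0
    have e : (fun i => x₀ i * c * (0 : k) ^ (a i - μ).toNat) = x := by
      funext i
      rw [h i]
      unfold wt
      by_cases h0 : x₀ i = 0
      · simp [h0]
      · have h2 := hlow i h0
        by_cases h3 : a i = μ
        · rw [if_pos h3, h3]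
          simp [mul_comm]
        · rw [if_neg h3]
          have h4 : (a i - μ).toNat ≠ 0 := by omega
          rw [zero_pow h4]
          ring
    rwa [e] at h1
  · -- the limit for large `t`
    set g : Polynomial k :=
      aeval (fun i => Polynomial.C (x₀ i * c) * Polynomial.X ^ (M - a i).toNat) f with hg
    have : Infinite k := IsAlgClosed.instInfinite
    have hroot : ∀ t : k, t ≠ 0 → g.eval t = 0 := by
      intro t ht
      rw [hg, eval_curve]
      have h1 := hev (c * t ^ (M - μ)) t⁻¹
      have e : (fun i => x₀ i * (c * t ^ (M - μ)) * t⁻¹ ^ (a i - μ).toNat) =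
          fun i => x₀ i * c * t ^ (M - a i).toNat := by
        funext i
        by_cases h0 : x₀ i = 0
        · rw [h0]
          ring
        · have h2 := hlow i h0
          have h3 := hhigh i h0
          have e1 : t⁻¹ ^ (a i - μ).toNat = t ^ (-(a i - μ)) := by
            rw [← zpow_natCast, Int.toNat_of_nonneg (by linarith), inv_zpow, zpow_neg]
          have e2 : t ^ (M - a i).toNat = t ^ (M - a i) := by
            rw [← zpow_natCast, Int.toNat_of_nonneg (by linarith)]
          have e3 : t ^ (M - a i) = t ^ (M - μ) * t ^ (-(a i - μ)) := by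
            rw [← zpow_add₀ ht]
            congr 1
            ring
          rw [e1, e2, e3]
          ring
      rwa [e] at h1
    have hg0 : g = 0 := by
      apply Polynomial.eq_zero_of_infinite_isRoot
      refine Set.Infinite.mono ?_ (Set.finite_singleton (0 : k)).infinite_compl
      intro t ht
      exact hroot t ht
    have h1 : g.eval 0 = 0 := by rw [hg0]; simp
    rw [hg, eval_curve] at h1
    have e : (fun i => x₀ i * c * (0 : k) ^ (M - a i).toNat) = x := by
      funext i
      rw [h i]
      unfold wt
      by_cases h0 : x₀ i = 0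
      · simp [h0]
      · have h2 := hhigh i h0
        by_cases h3 : a i = M
        · rw [if_pos h3, h3]
          simp [mul_comm]
        · rw [if_neg h3]
          have h4 : (M - a i).toNat ≠ 0 := by omega
          rw [zero_pow h4]
          ring
    rwa [e] at h1

/-- If every point of the variety is in the orbit of `x₀` or is one of its two limits, three elements
of the homogeneous coordinate ring are algebraically dependent. -/
theorem dim_orbit [IsAlgClosed k] (hP : I.IsPrime) (hH : Hom I) {x₀ : σ → k} {μ M : ℤ}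
    (hμ : IsLow a x₀ μ) (hM : IsLow (fun i => - a i) x₀ (-M))
    (hS : ∀ x : σ → k, x ≠ 0 → On I x →
      Orb a x₀ x ∨ Prp (wt a μ x₀) x ∨ Prp (wt a M x₀) x)
    (y : Fin 3 → MvPolynomial σ k ⧸ I) : ¬ AlgebraicIndependent k y := by
  have _ := hH
  intro hy
  choose f hf using fun j => Ideal.Quotient.mk_surjective (I := I) (y j)
  -- the images in two variables are dependent
  have hdep : ¬ AlgebraicIndependent k (fun j => par a μ x₀ (f j)) := by
    intro hind
    have h1 := hind.lift_cardinalMk_le_trdeg
    rw [MvPolynomial.trdeg_of_isDomain] at h1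
    simp at h1
    have h2 : (3 : Cardinal) ≤ 2 := h1
    norm_num at h2
  rw [algebraicIndependent_iff] at hdep
  push Not at hdep
  obtain ⟨P, hP0, hPne⟩ := hdep
  apply hPne
  rw [algebraicIndependent_iff] at hy
  apply hy
  have h1 : par a μ x₀ (aeval f P) = 0 := by
    rw [← hP0]
    exact comp_aeval_apply f (par a μ x₀) P
  have h2 := ker_le hP hμ hM hS h1
  have h3 : aeval y P = Ideal.Quotient.mk I (aeval f P) := by
    have h4 := comp_aeval_apply f (Ideal.Quotient.mkₐ k I) P
    rw [Ideal.Quotient.mkₐ_eq_mk] at h4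
    rw [h4]
    congr 1
    congr 1
    funext j
    exact (hf j).symm
  rw [h3, Ideal.Quotient.eq_zero_iff_mem]
  exact h2

end Pool.Agent.Helper97.GM
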