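import Pool.Agent.Helper97.GM.Setup

/-!
# Chains of rational curves
-/

set_option autoImplicit false

namespace Pool.Agent.Helper97.GM

open MvPolynomial

variable {k : Type*} [Field k] {σ : Type*} [Fintype σ]

/-- The points `x` and `x'` lie in the image of a morphism from the projective line to the
projective variety of `I`. -/
def Joined (I : Ideal (MvPolynomial σ k)) (x x' : σ → k) : Prop :=
  ∃ (d : ℕ) (y : σ → MvPolynomial (Fin 2) k), (∀ i, (y i).IsHomogeneous d) ∧
    (∀ s : Fin 2 → k, s ≠ 0 → (fun i => eval s (y i)) ≠ 0 ∧ On I (fun i => eval s (y i))) ∧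
    (∃ s : Fin 2 → k, s ≠ 0 ∧ ∃ c : k, c ≠ 0 ∧ ∀ i, eval s (y i) = c * x i) ∧
    ∃ s : Fin 2 → k, s ≠ 0 ∧ ∃ c : k, c ≠ 0 ∧ ∀ i, eval s (y i) = c * x' i

private lemma eval_line (s s' : Fin 2 → k) (q : MvPolynomial (Fin 2) k) (r : k) :
    (aeval (fun j => Polynomial.C (s j) + Polynomial.X * Polynomial.C (s' j - s j)) q :
      Polynomial k).eval r = eval (fun j => s j + r * (s' j - s j)) q := by
  have h1 : (Polynomial.evalRingHom r).comp
      (aeval (fun j => Polynomial.C (s j) + Polynomial.X * Polynomial.C (s' j - s j)) :
        MvPolynomial (Fin 2) k →ₐ[k] Polynomial k).toRingHom =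
      eval (fun j => s j + r * (s' j - s j)) := by
    apply MvPolynomial.ringHom_ext
    · intro a
      simp
    · intro j
      simp
  have h2 := DFunLike.congr_fun h1 q
  simpa using h2

private lemma eval_smul_form (m : k) (s : Fin 2 → k) {q : MvPolynomial (Fin 2) k} {d : ℕ}
    (hq : q.IsHomogeneous d) : eval (fun j => m * s j) q = m ^ d * eval s q := by
  have h1 := aeval_smul_form (L := k) m s hq
  simpa [aeval_eq_eval] using h1

/-- Two joined points are equal or lie on a polynomial curve, at the parameters `0` and `1`. -/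
theorem joined_cases {I : Ideal (MvPolynomial σ k)} {x x' : σ → k} (h : Joined I x x') :
    Prp x x' ∨ ∃ Y : σ → Polynomial k,
      (∀ s : k, (fun i => (Y i).eval s) ≠ 0 ∧ On I (fun i => (Y i).eval s)) ∧
      Prp x (fun i => (Y i).eval 0) ∧ Prp x' (fun i => (Y i).eval 1) := by
  obtain ⟨d, y, hhom, hon, ⟨s, hs, c, hc, hx⟩, s', hs', c', hc', hx'⟩ := h
  by_cases hm : ∃ m : k, ∀ j, s' j = m * s j
  · left
    obtain ⟨m, hm⟩ := hm
    have hm0 : m ≠ 0 := by
      intro h0
      apply hs'
      funext j
      rw [hm j, h0, zero_mul]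
      rfl
    have e1 : s' = fun j => m * s j := funext hm
    refine ⟨c'⁻¹ * (m ^ d * c), mul_ne_zero (inv_ne_zero hc') (mul_ne_zero (pow_ne_zero _ hm0) hc),
      fun i => ?_⟩
    have h1 : c' * x' i = m ^ d * (c * x i) := by
      rw [← hx' i, ← hx i, e1, eval_smul_form m s (hhom i)]
    have h2 : x' i = c'⁻¹ * (c' * x' i) := by
      rw [← mul_assoc, inv_mul_cancel₀ hc', one_mul]
    rw [h2, h1]
    ring
  · right
    refine ⟨fun i => aeval (fun j => Polynomial.C (s j) + Polynomial.X *
      Polynomial.C (s' j - s j)) (y i), fun r => ?_, ⟨c, hc, fun i => ?_⟩, ⟨c', hc', fun i => ?_⟩⟩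
    · have hne : (fun j => s j + r * (s' j - s j)) ≠ 0 := by
        intro h0
        by_cases hr : r = 0
        · apply hs
          funext j
          have := congrFun h0 j
          rw [hr] at this
          simpa using this
        · apply hm
          refine ⟨(r - 1) * r⁻¹, fun j => ?_⟩
          have h1 : s j + r * (s' j - s j) = 0 := congrFun h0 j
          have h2 : r * s' j = (r - 1) * s j := by linear_combination h1
          have h3 : s' j = r⁻¹ * (r * s' j) := by
            rw [← mul_assoc, inv_mul_cancel₀ hr, one_mul]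
          rw [h3, h2]
          ring
      have h1 := hon _ hne
      have e : (fun i => (aeval (fun j => Polynomial.C (s j) + Polynomial.X *
          Polynomial.C (s' j - s j)) (y i) : Polynomial k).eval r) =
          fun i => eval (fun j => s j + r * (s' j - s j)) (y i) :=
        funext fun i => eval_line s s' (y i) r
      rw [e]
      exact h1
    · beta_reduce
      rw [eval_line]
      have e : (fun j => s j + (0 : k) * (s' j - s j)) = s := by
        funext j
        rw [zero_mul, add_zero]
      rw [e]
      exact hx i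
    · beta_reduce
      rw [eval_line]
      have e : (fun j => s j + (1 : k) * (s' j - s j)) = s' := by
        funext j
        ring
      rw [e]
      exact hx' i

end Pool.Agent.Helper97.GM
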