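import Pool.Agent.Helper97.GM.Joined
import Pool.Agent.Helper97.GM.Curve
import Pool.Agent.Helper97.GM.Dim

/-!
# Smooth rationally chain connected varieties with an action of the multiplicative group
-/

set_option autoImplicit false

namespace Pool.Agent.Helper97.GM

open MvPolynomial

variable {k : Type*} [Field k] {σ : Type*}

theorem Prp.symm {x y : σ → k} (h : Prp x y) : Prp y x := by
  obtain ⟨c, hc, h⟩ := h
  refine ⟨c⁻¹, inv_ne_zero hc, fun i => ?_⟩
  rw [h i, inv_mul_cancel_left₀ hc]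

theorem Prp.trans {x y z : σ → k} (h : Prp x y) (h' : Prp y z) : Prp x z := by
  obtain ⟨c, hc, h⟩ := h
  obtain ⟨c', hc', h'⟩ := h'
  refine ⟨c' * c, mul_ne_zero hc' hc, fun i => ?_⟩
  rw [h' i, h i, mul_assoc]

theorem Prp.ne {x y : σ → k} (h : Prp x y) {i : σ} (hi : x i ≠ 0) : y i ≠ 0 := by
  obtain ⟨c, hc, h⟩ := h
  rw [h i]
  exact mul_ne_zero hc hi

variable {a : σ → ℤ}

theorem Orb.ne {x y : σ → k} (h : Orb a x y) {i : σ} (hi : x i ≠ 0) : y i ≠ 0 := by
  obtain ⟨c, t, hc, ht, h⟩ := h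
  rw [h i]
  exact mul_ne_zero hc (mul_ne_zero (zpow_ne_zero _ ht) hi)

theorem Orb.refl (x : σ → k) : Orb a x x :=
  ⟨1, 1, one_ne_zero, one_ne_zero, fun i => by rw [one_zpow, one_mul, one_mul]⟩

theorem Orb.symm {x y : σ → k} (h : Orb a x y) : Orb a y x := by
  obtain ⟨c, t, hc, ht, h⟩ := h
  refine ⟨c⁻¹, t⁻¹, inv_ne_zero hc, inv_ne_zero ht, fun i => ?_⟩
  rw [h i, inv_zpow]
  have := zpow_ne_zero (a i) ht
  field_simp

theorem Orb.trans {x y z : σ → k} (h : Orb a x y) (h' : Orb a y z) : Orb a x z := by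
  obtain ⟨c, t, hc, ht, h⟩ := h
  obtain ⟨c', t', hc', ht', h'⟩ := h'
  refine ⟨c' * c, t' * t, mul_ne_zero hc' hc, mul_ne_zero ht' ht, fun i => ?_⟩
  rw [h' i, h i, mul_zpow]
  ring

theorem Orb.prp {x y z : σ → k} (h : Orb a x y) (h' : Prp y z) : Orb a x z := by
  obtain ⟨c, t, hc, ht, h⟩ := h
  obtain ⟨c', hc', h'⟩ := h'
  refine ⟨c' * c, t, mul_ne_zero hc' hc, ht, fun i => ?_⟩
  rw [h' i, h i]
  ring

theorem Orb.neg {x y : σ → k} (h : Orb (fun i => - a i) x y) : Orb a x y := by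
  obtain ⟨c, t, hc, ht, h⟩ := h
  refine ⟨c, t⁻¹, hc, inv_ne_zero ht, fun i => ?_⟩
  rw [h i, inv_zpow, zpow_neg]

theorem Orb.wt {x y : σ → k} (h : Orb a x y) (α : ℤ) : Prp (wt a α x) (wt a α y) := by
  obtain ⟨c, t, hc, ht, h⟩ := h
  refine ⟨c * t ^ α, mul_ne_zero hc (zpow_ne_zero _ ht), fun i => ?_⟩
  unfold GM.wt
  by_cases hi : a i = α
  · rw [if_pos hi, if_pos hi, h i, hi, mul_assoc]
  · rw [if_neg hi, if_neg hi, mul_zero]

theorem wt_ne {α : ℤ} {x : σ → k} {i : σ} (hi : wt a α x i ≠ 0) : a i = α ∧ x i ≠ 0 := by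
  unfold wt at hi
  by_cases h : a i = α
  · rw [if_pos h] at hi
    exact ⟨h, hi⟩
  · rw [if_neg h] at hi
    exact absurd rfl hi

theorem wt_of {α : ℤ} {x : σ → k} {i : σ} (h : a i = α) (hi : x i ≠ 0) : wt a α x i ≠ 0 := by
  unfold wt
  rw [if_pos h]
  exact hi

/-- a point proportional to a part of weight `α` is supported on weight `α` -/
theorem Prp.supp {α : ℤ} {x y : σ → k} (h : Prp (wt a α x) y) {i : σ} (hi : y i ≠ 0) : a i = α :=
  (wt_ne (h.symm.ne hi)).1

theorem IsLow.unique {x : σ → k} {α β : ℤ} (h : IsLow a x α) (h' : IsLow a x β) : α = β := by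
  obtain ⟨i, hi, hxi⟩ := h.2
  obtain ⟨j, hj, hxj⟩ := h'.2
  have h1 := h.1 j hxj
  have h2 := h'.1 i hxi
  omega

theorem IsLow.orb {x y : σ → k} {α : ℤ} (h : IsLow a x α) (h' : Orb a x y) : IsLow a y α := by
  obtain ⟨i, hi, hxi⟩ := h.2
  exact ⟨fun j hj => h.1 j (h'.symm.ne hj), i, hi, h'.ne hxi⟩

theorem wt_neg (α : ℤ) (x : σ → k) : wt (fun i => - a i) (-α) x = wt a α x := by
  funext i
  unfold wt
  simp only [neg_inj]

variable [Fintype σ] {I : Ideal (MvPolynomial σ k)}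

/-- The closure of a general orbit is closed under rational curves. -/
theorem Setup.closed [IsAlgClosed k] (h : Setup I a) {x₀ : σ → k} (hx₀ : On I x₀) {μ M : ℤ}
    (hμ : IsLow a x₀ μ) (hM : IsLow (fun i => - a i) x₀ (-M)) (hμM : μ < M)
    (hall : ∀ x : σ → k, On I x → ∀ i, x i ≠ 0 → μ ≤ a i ∧ a i ≤ M) {x x' : σ → k}
    (hj : Joined I x x') (hx : Orb a x₀ x ∨ Prp (wt a μ x₀) x ∨ Prp (wt a M x₀) x) :
    Orb a x₀ x' ∨ Prp (wt a μ x₀) x' ∨ Prp (wt a M x₀) x' := by
  obtain ⟨iμ, hiμ, hxμ⟩ := hμ.2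
  obtain ⟨iM, hiM', hxM⟩ := hM.2
  have hiM : a iM = M := by
    have := hiM'
    simp only [neg_inj] at this
    exact this
  -- transport along proportionality
  have key : Prp x x' → Orb a x₀ x' ∨ Prp (wt a μ x₀) x' ∨ Prp (wt a M x₀) x' := by
    intro hp
    rcases hx with hx | hx | hx
    · exact Or.inl (hx.prp hp)
    · exact Or.inr (Or.inl (hx.trans hp))
    · exact Or.inr (Or.inr (hx.trans hp))
  rcases joined_cases hj with hp | ⟨Y, hY, hY0, hY1⟩
  · exact key hp
  have hYon : ∀ s : k, On I (fun i => (Y i).eval s) := fun s => (hY s).2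
  have hYne : ∀ s : k, (fun i => (Y i).eval s) ≠ 0 := fun s => (hY s).1
  by_cases hne : ∃ i j, Y i ≠ 0 ∧ Y j ≠ 0 ∧ a i ≠ a j
  · -- the curve is not pointwise fixed
    obtain ⟨z, α, β, hz, hzα, hzβ, hαβ, hpt⟩ := h.curve hYon hYne hne
    obtain ⟨iα, hiα, hzα'⟩ := hzα.2
    obtain ⟨iβ, hiβ', hzβ'⟩ := hzβ.2
    have hiβ : a iβ = β := by
      have := hiβ'
      simp only [neg_inj] at this
      exact this
    have hμα := (hall z hz iα hzα').1
    have hβM := (hall z hz iβ hzβ').2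
    have hneμ : ∃ i, a i ≠ μ ∧ x₀ i ≠ 0 := ⟨iM, by omega, hxM⟩
    have horb : Orb a x₀ z := by
      rcases hx with hx | hx | hx
      · rcases hpt 0 with h0 | h0 | h0
        · exact hx.trans ((Orb.prp h0 hY0.symm).symm)
        · have e1 := h0.supp (hY0.ne (hx.ne hxμ))
          have e2 := h0.supp (hY0.ne (hx.ne hxM))
          omega
        · have e1 := h0.supp (hY0.ne (hx.ne hxμ))
          have e2 := h0.supp (hY0.ne (hx.ne hxM))
          omega
      · have hx2 := hx.trans hY0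
        rcases hpt 0 with h0 | h0 | h0
        · have e1 := hx2.supp (h0.ne hzα')
          have e2 := hx2.supp (h0.ne hzβ')
          omega
        · have e1 := hx2.supp (h0.ne (wt_of hiα hzα'))
          have e3 : α = μ := by omega
          subst e3
          exact h.orb hx₀ hz hμ hzα (hx2.trans h0.symm) hneμ ⟨iβ, by omega, hzβ'⟩
        · have e1 := hx2.supp (h0.ne (wt_of hiβ hzβ'))
          omega
      · have hx2 := hx.trans hY0
        rcases hpt 0 with h0 | h0 | h0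
        · have e1 := hx2.supp (h0.ne hzα')
          have e2 := hx2.supp (h0.ne hzβ')
          omega
        · have e1 := hx2.supp (h0.ne (wt_of hiα hzα'))
          omega
        · have e1 := hx2.supp (h0.ne (wt_of hiβ hzβ'))
          have e3 : β = M := by omega
          subst e3
          refine Orb.neg (h.neg.orb hx₀ hz hM hzβ ?_ ⟨iμ, by omega, hxμ⟩
            ⟨iα, by omega, hzα'⟩)
          rw [wt_neg, wt_neg]
          exact hx2.trans h0.symm
    have eα : μ = α := (hμ.orb horb).unique hzα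
    have eβ : M = β := by
      have h1 : IsLow (fun i => - a i) z (-M) := by
        obtain ⟨i, hi, hxi⟩ := hM.2
        exact ⟨fun j hj => hM.1 j (horb.symm.ne hj), i, hi, horb.ne hxi⟩
      have := h1.unique hzβ
      omega
    subst eα
    subst eβ
    rcases hpt 1 with h1 | h1 | h1
    · exact Or.inl (horb.trans (h1.prp hY1.symm))
    · exact Or.inr (Or.inl (((horb.wt μ).trans h1).trans hY1.symm))
    · exact Or.inr (Or.inr (((horb.wt M).trans h1).trans hY1.symm))
  · -- the curve is pointwise fixed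
    obtain ⟨i₀, hi₀⟩ : ∃ i, (Y i).eval 0 ≠ 0 := by
      by_contra hcon
      push Not at hcon
      exact hYne 0 (funext hcon)
    have hYi : Y i₀ ≠ 0 := by
      intro h0
      rw [h0, Polynomial.eval_zero] at hi₀
      exact hi₀ rfl
    have hsup : ∀ i, a i ≠ a i₀ → Y i = 0 := by
      intro i hi
      by_contra hcon
      exact hne ⟨i, i₀, hcon, hYi, hi⟩
    have hev : ∀ i, (Y i).eval 0 ≠ 0 → a i = a i₀ := by
      intro i hi
      by_contra hcon
      rw [hsup i hcon, Polynomial.eval_zero] at hi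
      exact hi rfl
    have hconst : (∀ j, ∃ c : k, Y j = Polynomial.C c * Y i₀) →
        Prp (fun i => (Y i).eval 0) (fun i => (Y i).eval 1) := by
      intro hc
      have h1 : (Y i₀).eval 1 ≠ 0 := by
        intro h1
        apply hYne 1
        funext i
        obtain ⟨c, hc⟩ := hc i
        simp only [hc, Polynomial.eval_mul, h1, mul_zero, Pi.zero_apply]
      refine ⟨(Y i₀).eval 1 / (Y i₀).eval 0, div_ne_zero h1 hi₀, fun i => ?_⟩
      obtain ⟨c, hc⟩ := hc i
      simp only [hc, Polynomial.eval_mul, Polynomial.eval_C]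
      field_simp
    have hfin : (∀ j, ∃ c : k, Y j = Polynomial.C c * Y i₀) →
        Orb a x₀ x' ∨ Prp (wt a μ x₀) x' ∨ Prp (wt a M x₀) x' := fun hc =>
      key ((hY0.trans (hconst hc)).trans hY1.symm)
    rcases hx with hx | hx | hx
    · have e1 := hev iμ (hY0.ne (hx.ne hxμ))
      have e2 := hev iM (hY0.ne (hx.ne hxM))
      omega
    · have hx2 := hx.trans hY0
      have e1 := hx2.supp hi₀
      exact hfin fun j => h.fixed_curve hYon (fun i hi => hsup i (by rw [e1]; exact hi)) hx₀ hμ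
        ⟨iM, by omega, hxM⟩ hx2 hYi
    · have hx2 := hx.trans hY0
      have e1 := hx2.supp hi₀
      refine hfin fun j => h.neg.fixed_curve (α := -M) hYon (fun i hi => hsup i ?_) hx₀ hM
        ⟨iμ, by omega, hxμ⟩ (s₀ := 0) ?_ hYi
      · intro hc
        apply hi
        simp only [neg_inj]
        omega
      · rw [wt_neg]
        exact hx2

theorem main [IsAlgClosed k] (hP : I.IsPrime) (hH : Hom I)
    (hsm : ∀ x : σ → k, x ≠ 0 → On I x → SmoothPt I x)
    (hdim : ∃ y : Fin 3 → MvPolynomial σ k ⧸ I, AlgebraicIndependent k y)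
    (hst : ∀ t : k, t ≠ 0 → ∀ x : σ → k, On I x → On I (fun i => t ^ a i * x i))
    (hnt : ∃ x : σ → k, On I x ∧ ∃ t : k, t ≠ 0 ∧ ∀ c : k, (fun i => t ^ a i * x i) ≠ c • x)
    (hrc : ∀ x x' : σ → k, x ≠ 0 → x' ≠ 0 → On I x → On I x' → Relation.ReflTransGen (Joined I) x x') :
    HasSurface I := by
  by_contra hno
  have h : Setup I a := ⟨hP, hH, hst, hsm, hno⟩
  classical
  set W : Finset ℤ := (Finset.univ.filter fun i : σ => (X i : MvPolynomial σ k) ∉ I).image a with hW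
  have hW1 : ∀ x : σ → k, On I x → ∀ i, x i ≠ 0 → a i ∈ W := by
    intro x hx i hi
    rw [hW, Finset.mem_image]
    refine ⟨i, Finset.mem_filter.2 ⟨Finset.mem_univ _, fun hmem => hi ?_⟩, rfl⟩
    have := hx _ hmem
    rwa [aeval_X] at this
  obtain ⟨x₁, hx₁, t₁, ht₁, hc₁⟩ := hnt
  have hWne : W.Nonempty := by
    by_contra hcon
    rw [Finset.not_nonempty_iff_eq_empty] at hcon
    apply hc₁ 0
    funext i
    have : x₁ i = 0 := by
      by_contra hi
      have := hW1 x₁ hx₁ i hi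
      rw [hcon] at this
      exact absurd this (Finset.notMem_empty _)
    simp only [this, mul_zero, Pi.smul_apply, smul_zero]
  set μ := W.min' hWne with hμd
  set M := W.max' hWne with hMd
  have hall : ∀ x : σ → k, On I x → ∀ i, x i ≠ 0 → μ ≤ a i ∧ a i ≤ M := fun x hx i hi =>
    ⟨W.min'_le _ (hW1 x hx i hi), W.le_max' _ (hW1 x hx i hi)⟩
  have hμM : μ < M := by
    by_contra hcon
    apply hc₁ (t₁ ^ μ)
    funext i
    by_cases hi : x₁ i = 0
    · simp only [hi, mul_zero, Pi.smul_apply, smul_zero]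
    · have h1 := hall x₁ hx₁ i hi
      have h2 : a i = μ := by omega
      simp only [h2, Pi.smul_apply, smul_eq_mul]
  obtain ⟨iμ, hiμ1, hiμ2⟩ := Finset.mem_image.1 (W.min'_mem hWne)
  obtain ⟨iM, hiM1, hiM2⟩ := Finset.mem_image.1 (W.max'_mem hWne)
  have hiμ3 := (Finset.mem_filter.1 hiμ1).2
  have hiM3 := (Finset.mem_filter.1 hiM1).2
  obtain ⟨x₀, hx₀, hx₀ne⟩ : ∃ x : σ → k, On I x ∧ x iμ * x iM ≠ 0 := by
    by_contra hcon
    push Not at hcon
    have := mem_of_vanish hP (f := X iμ * X iM) (fun x hx => by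
      rw [map_mul, aeval_X, aeval_X]
      exact hcon x hx)
    rcases hP.mem_or_mem this with h1 | h1
    · exact hiμ3 h1
    · exact hiM3 h1
  have hx₀μ : IsLow a x₀ μ := ⟨fun i hi => (hall x₀ hx₀ i hi).1, iμ, hiμ2, left_ne_zero_of_mul hx₀ne⟩
  have hx₀M : IsLow (fun i => - a i) x₀ (-M) :=
    ⟨fun i hi => neg_le_neg (hall x₀ hx₀ i hi).2, iM, congrArg Neg.neg hiM2,
      right_ne_zero_of_mul hx₀ne⟩
  have hx₀0 : x₀ ≠ 0 := by
    intro h0
    rw [h0] at hx₀ne
    simp at hx₀ne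
  obtain ⟨y, hy⟩ := hdim
  have hS : ∀ x : σ → k, Relation.ReflTransGen (Joined I) x₀ x →
      Orb a x₀ x ∨ Prp (wt a μ x₀) x ∨ Prp (wt a M x₀) x := by
    intro x hch
    induction hch with
    | refl => exact Or.inl (Orb.refl _)
    | tail _ hj ih => exact h.closed hx₀ hx₀μ hx₀M hμM hall hj ih
  exact dim_orbit hP hH hx₀μ hx₀M (fun x hx hxI => hS x (hrc x₀ x hx₀0 hx hx₀ hxI)) y hy

end Pool.Agent.Helper97.GM
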