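import Pool.Agent.Helper97.GM.Choice

/-!
# From a point of a curve to its generic point
-/

set_option autoImplicit false
set_option linter.unusedSectionVars false

namespace Pool.Agent.Helper97.GM

open MvPolynomial

variable {k : Type*} [Field k] {σ : Type*} [Fintype σ]

/-- Independent rows have a right inverse. -/
theorem semi_dual {K : Type*} [Field K] {c : ℕ} {v : Fin c → σ → K}
    (hv : LinearIndependent K v) :
    ∃ R : σ → Fin c → K, ∀ j j', ∑ i, v j i * R i j' = if j = j' then 1 else 0 := by
  classical
  set Φ : (Fin c → K) →ₗ[K] (σ → K) := Fintype.linearCombination K v with hΦ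
  have hinj : LinearMap.ker Φ = ⊥ := by
    rw [LinearMap.ker_eq_bot']
    intro m hm
    rw [hΦ, Fintype.linearCombination_apply] at hm
    funext j
    exact Fintype.linearIndependent_iff.mp hv m hm j
  obtain ⟨G, hG⟩ := Φ.exists_leftInverse_of_injective hinj
  refine ⟨fun i j' => G (Pi.single i 1) j', fun j j' => ?_⟩
  have h1 : Φ (Pi.single j 1) = v j := by
    rw [hΦ]
    simp [Fintype.linearCombination_apply, Pi.single_apply]
  have h2 : G (v j) = Pi.single j 1 := by
    rw [← h1]
    exact congrArg (fun F : (Fin c → K) →ₗ[K] (Fin c → K) => F (Pi.single j 1)) hG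
  have h3 : v j = ∑ i, v j i • (Pi.single i (1 : K) : σ → K) := by
    funext i'
    simp [Finset.sum_apply, Pi.single_apply]
  have h4 : G (v j) = ∑ i, v j i • G (Pi.single i (1 : K)) := by
    conv_lhs => rw [h3]
    rw [map_sum]
    simp only [map_smul]
  have h5 := congrFun (h4.symm.trans h2) j'
  rw [Finset.sum_apply] at h5
  simp only [Pi.smul_apply, smul_eq_mul] at h5
  rw [h5, Pi.single_apply]
  simp only [eq_comm]

/-- Independence at a special point implies independence at the generic point. -/
theorem semi_indep {c : ℕ} {M : Fin c → σ → Polynomial k} {s₀ : k}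
    (hM : LinearIndependent k (fun j => fun i => (M j i).eval s₀)) :
    LinearIndependent (RatFunc k)
      (fun j => fun i => algebraMap (Polynomial k) (RatFunc k) (M j i)) := by
  classical
  obtain ⟨R, hR⟩ := semi_dual hM
  set B : Matrix (Fin c) (Fin c) (Polynomial k) :=
    fun j j' => ∑ i, M j i * Polynomial.C (R i j') with hB
  have hdet : B.det ≠ 0 := by
    intro h0
    have h1 : (Polynomial.evalRingHom s₀).mapMatrix B = 1 := by
      ext j j'
      simp only [RingHom.mapMatrix_apply, Matrix.map_apply, hB, Polynomial.coe_evalRingHom,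
        Polynomial.eval_finsetSum, Polynomial.eval_mul, Polynomial.eval_C]
      rw [hR j j', Matrix.one_apply]
    have h2 : ((Polynomial.evalRingHom s₀).mapMatrix B).det = 1 := by rw [h1, Matrix.det_one]
    rw [← RingHom.map_det, h0, map_zero] at h2
    exact zero_ne_one h2
  rw [Fintype.linearIndependent_iff]
  intro a ha
  have hz : Matrix.vecMul a ((algebraMap (Polynomial k) (RatFunc k)).mapMatrix B) = 0 := by
    funext j'
    simp only [Matrix.vecMul, dotProduct, RingHom.mapMatrix_apply, Matrix.map_apply, hB,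
      map_sum, map_mul, Pi.zero_apply, Finset.mul_sum]
    rw [Finset.sum_comm]
    refine Finset.sum_eq_zero fun i _ => ?_
    have h1 := congrFun ha i
    simp only [Finset.sum_apply, Pi.smul_apply, smul_eq_mul, Pi.zero_apply] at h1
    calc ∑ x, a x * ((algebraMap (Polynomial k) (RatFunc k)) (M x i) *
          (algebraMap (Polynomial k) (RatFunc k)) (Polynomial.C (R i j')))
        = (∑ x, a x * (algebraMap (Polynomial k) (RatFunc k)) (M x i)) *
          (algebraMap (Polynomial k) (RatFunc k)) (Polynomial.C (R i j')) := by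
          rw [Finset.sum_mul]
          exact Finset.sum_congr rfl fun x _ => by ring
      _ = 0 := by rw [h1, zero_mul]
  have hdet' : ((algebraMap (Polynomial k) (RatFunc k)).mapMatrix B).det ≠ 0 := by
    rw [← RingHom.map_det]
    intro h
    exact hdet ((map_eq_zero_iff _ (IsFractionRing.injective (Polynomial k) (RatFunc k))).mp h)
  have := Matrix.eq_zero_of_vecMul_eq_zero hdet' hz
  exact fun j => congrFun this j

theorem semi_eval (q : σ → Polynomial k) (s₀ : k) (P : MvPolynomial σ k) :
    (aeval q P).eval s₀ = aeval (fun i => (q i).eval s₀) P := by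
  have := MvPolynomial.comp_aeval_apply (R := k) q (Polynomial.aeval s₀) P
  simpa only [Polynomial.coe_aeval_eq_eval] using this

theorem semi_aeval (q : σ → Polynomial k) (P : MvPolynomial σ k) :
    aeval (fun i => algebraMap (Polynomial k) (RatFunc k) (q i)) P =
      algebraMap (Polynomial k) (RatFunc k) (aeval q P) :=
  MvPolynomial.aeval_algebraMap_apply (RatFunc k) q P

/-- The independence part of `smooth_gen`. -/
theorem semi_smooth_aux {q : σ → Polynomial k} {s₀ : k} {c : ℕ} {f : Fin c → MvPolynomial σ k}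
    (hi : LinearIndependent k (fun j => fun i => aeval (fun i => (q i).eval s₀) (pderiv i (f j)))) :
    LinearIndependent (RatFunc k) (fun j => fun i =>
      aeval (fun i => algebraMap (Polynomial k) (RatFunc k) (q i)) (pderiv i (f j))) := by
  have h1 : LinearIndependent k (fun j => fun i => (aeval q (pderiv i (f j))).eval s₀) := by
    simpa only [semi_eval] using hi
  have h2 := semi_indep h1
  simpa only [semi_aeval] using h2

/-- The generic point of a curve through a smooth point is smooth. -/
theorem smooth_gen {I : Ideal (MvPolynomial σ k)} {q : σ → Polynomial k} {s₀ : k}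
    (hs : SmoothPt I (fun i => (q i).eval s₀)) :
    SmoothPt I (fun i => algebraMap (Polynomial k) (RatFunc k) (q i)) := by
  obtain ⟨c, f, d, h, e, h1, h2, h3, h4, h5, h6⟩ := hs
  refine ⟨c, f, d, h, e, h1, h2, h3, semi_smooth_aux h4, ?_, h6⟩
  rw [semi_aeval]
  intro h0
  have h7 := (map_eq_zero_iff _ (IsFractionRing.injective (Polynomial k) (RatFunc k))).mp h0
  apply h5
  rw [← semi_eval, h7, Polynomial.eval_zero]

/-- The gradient of an element of `I` is a combination of the gradients of the `f_j`. -/
theorem semi_grad {I : Ideal (MvPolynomial σ k)} {K : Type*} [Field K] [Algebra k K] {x : σ → K}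
    (hx : On I x) {c : ℕ} {f : Fin c → MvPolynomial σ k} {h : MvPolynomial σ k}
    (hf : ∀ j, f j ∈ I) (hh : aeval x h ≠ 0) {g : MvPolynomial σ k} (hg : g ∈ I)
    (hs : h * g ∈ Ideal.span (Set.range f)) :
    (fun i => aeval x (pderiv i g)) ∈
      Submodule.span K (Set.range (fun j => fun i => aeval x (pderiv i (f j)))) := by
  obtain ⟨a, ha⟩ := (Submodule.mem_span_range_iff_exists_fun (MvPolynomial σ k)).mp hs
  have h1 : (fun i => aeval x (pderiv i g)) =
      ∑ j, ((aeval x h)⁻¹ * aeval x (a j)) • (fun i => aeval x (pderiv i (f j))) := by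
    funext i
    have h2 := congrArg (fun P => aeval x (pderiv i P)) ha
    simp only [map_sum, smul_eq_mul, Derivation.leibniz, map_add, map_mul] at h2
    have h3 : aeval x g = 0 := hx g hg
    have h4 : ∀ j, aeval x (f j) = 0 := fun j => hx (f j) (hf j)
    simp only [h3, h4, zero_mul, add_zero] at h2
    rw [Finset.sum_apply]
    simp only [Pi.smul_apply, smul_eq_mul]
    have h5 : ∑ j, (aeval x h)⁻¹ * aeval x (a j) * aeval x (pderiv i (f j)) =
        (aeval x h)⁻¹ * ∑ j, aeval x (a j) * aeval x (pderiv i (f j)) := by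
      rw [Finset.mul_sum]
      exact Finset.sum_congr rfl fun j _ => by ring
    rw [h5, h2, ← mul_assoc, inv_mul_cancel₀ hh, one_mul]
  rw [h1]
  exact Submodule.sum_mem _ fun j _ =>
    Submodule.smul_mem _ _ (Submodule.subset_span (Set.mem_range_self j))

/-- The linear system: `x` is supported on the weight `w₀` and orthogonal to the rows of weight `w₀`. -/
def semiEqns (b : σ → ℤ) (w₀ : ℤ) {c : ℕ} (w : Fin c → ℤ) {F : Type*} [Field F] (A : Fin c → σ → F) :
    (σ → F) →ₗ[F] ({i // b i ≠ w₀} → F) × ({j // w j = w₀} → F) where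
  toFun x := (fun i => x i.1, fun j => ∑ i, A j.1 i * x i)
  map_add' x y := by
    ext <;> simp [mul_add, Finset.sum_add_distrib]
  map_smul' a x := by
    ext
    · simp
    · simp only [Pi.smul_apply, smul_eq_mul, RingHom.id_apply, Prod.smul_mk, Finset.mul_sum]
      exact Finset.sum_congr rfl fun i _ => by ring

theorem semi_finrank (b : σ → ℤ) (w₀ : ℤ) {c : ℕ} (w : Fin c → ℤ) (F : Type*) [Field F] :
    Module.finrank F (({i // b i ≠ w₀} → F) × ({j // w j = w₀} → F)) =
      Fintype.card {i // b i ≠ w₀} + Fintype.card {j // w j = w₀} := by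
  rw [Module.finrank_prod, Module.finrank_fintype_fun_eq_card, Module.finrank_fintype_fun_eq_card]

/-- Fewer equations than unknowns. -/
theorem semi_card {b : σ → ℤ} {w₀ : ℤ} {c : ℕ} {w : Fin c → ℤ} {A : Fin c → σ → k}
    (hA : LinearIndependent k A) (hA0 : ∀ j, w j = w₀ → ∀ i, b i ≠ w₀ → A j i = 0)
    {x : σ → k} (hx : x ≠ 0) (hx0 : semiEqns b w₀ w A x = 0) :
    Fintype.card {i // b i ≠ w₀} + Fintype.card {j // w j = w₀} < Fintype.card σ := by
  classical
  obtain ⟨R, hR⟩ := semi_dual hA
  have hsurj : LinearMap.range (semiEqns b w₀ w A) = ⊤ := by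
    rw [LinearMap.range_eq_top]
    rintro ⟨a, y⟩
    let y' : Fin c → k := fun j => if hj : w j = w₀ then y ⟨j, hj⟩ else 0
    refine ⟨fun i => if hi : b i ≠ w₀ then a ⟨i, hi⟩ else ∑ j', R i j' * y' j', ?_⟩
    refine Prod.ext ?_ ?_
    · funext i
      simp only [semiEqns, LinearMap.coe_mk, AddHom.coe_mk]
      rw [dif_pos i.2]
    · funext j
      simp only [semiEqns, LinearMap.coe_mk, AddHom.coe_mk]
      have e1 : ∀ i, A j.1 i * (if hi : b i ≠ w₀ then a ⟨i, hi⟩ else ∑ j', R i j' * y' j') =
          ∑ j', A j.1 i * R i j' * y' j' := by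
        intro i
        by_cases hi : b i ≠ w₀
        · rw [hA0 j.1 j.2 i hi]
          simp
        · rw [dif_neg hi, Finset.mul_sum]
          exact Finset.sum_congr rfl fun j' _ => by ring
      simp only [e1]
      rw [Finset.sum_comm]
      have e2 : ∀ j', ∑ i, A j.1 i * R i j' * y' j' = (if j.1 = j' then 1 else 0) * y' j' := by
        intro j'
        rw [← Finset.sum_mul, hR]
      simp only [e2]
      simp only [ite_mul, one_mul, zero_mul, Finset.sum_ite_eq, Finset.mem_univ, if_true]
      simp only [y', j.2, dif_pos]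
  have e1 := LinearMap.finrank_range_add_finrank_ker (semiEqns b w₀ w A)
  rw [hsurj, finrank_top, semi_finrank, Module.finrank_fintype_fun_eq_card] at e1
  have e2 : 0 < Module.finrank k (LinearMap.ker (semiEqns b w₀ w A)) := by
    rw [Module.finrank_pos_iff_exists_ne_zero]
    exact ⟨⟨x, hx0⟩, fun h => hx (congrArg Subtype.val h)⟩
  omega

/-- A curve of fixed points through a smooth point with a tangent vector of positive weight: there is
such a vector at the generic point. -/
theorem semi {I : Ideal (MvPolynomial σ k)} {b : σ → ℤ} (hI : Graded I b) {q : σ → Polynomial k}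
    (hq : On I q) (hq0 : ∀ i, b i ≠ 0 → q i = 0) {s₀ : k}
    (hs : SmoothPt I (fun i => (q i).eval s₀)) {v : σ → k}
    (hv : TPos I b (fun i => (q i).eval s₀) v) (hvn : v ≠ 0) :
    ∃ u : σ → RatFunc k, u ≠ 0 ∧ TPos I b (fun i => algebraMap (Polynomial k) (RatFunc k) (q i)) u := by
  classical
  set p : σ → k := fun i => (q i).eval s₀ with hp
  set Q : σ → RatFunc k := fun i => algebraMap (Polynomial k) (RatFunc k) (q i) with hQ
  have hpI : On I p := fun f hf => by
    rw [hp, ← semi_eval, hq f hf, Polynomial.eval_zero]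
  have hQI : On I Q := fun f hf => by
    rw [hQ, semi_aeval, hq f hf, map_zero]
  have hp0 : ∀ i, b i ≠ 0 → p i = 0 := fun i hi => by
    simp only [hp, hq0 i hi, Polynomial.eval_zero]
  have hQ0 : ∀ i, b i ≠ 0 → Q i = 0 := fun i hi => by
    simp only [hQ, hq0 i hi, map_zero]
  obtain ⟨c, g, w, hgI, hgw, hgind, hgspan⟩ := choice hI hpI hs
  obtain ⟨c', f, d, h, e, h1, h2, h3, h4, h5, h6⟩ := hs
  -- the number of the `g_j`
  have hspan_p : Submodule.span k (Set.range (fun j => fun i => aeval p (pderiv i (g j)))) =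
      Submodule.span k (Set.range (fun j => fun i => aeval p (pderiv i (f j)))) := by
    apply le_antisymm
    · rw [Submodule.span_le]
      rintro _ ⟨j, rfl⟩
      exact semi_grad hpI h1 h5 (hgI j) (h6 _ (hgI j))
    · rw [Submodule.span_le]
      rintro _ ⟨j, rfl⟩
      exact hgspan _ (h1 j)
  have hcc : c = c' := by
    have e1 := finrank_span_eq_card hgind
    have e2 := finrank_span_eq_card h4
    rw [hspan_p, e2] at e1
    simpa using e1.symm
  have hh' : aeval Q h ≠ 0 := by
    rw [hQ, semi_aeval]
    intro h0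
    have h7 := (map_eq_zero_iff _ (IsFractionRing.injective (Polynomial k) (RatFunc k))).mp h0
    apply h5
    rw [hp, ← semi_eval, h7, Polynomial.eval_zero]
  have hgindQ : LinearIndependent (RatFunc k) (fun j => fun i => aeval Q (pderiv i (g j))) :=
    semi_smooth_aux hgind
  have hfindQ : LinearIndependent (RatFunc k) (fun j => fun i => aeval Q (pderiv i (f j))) :=
    semi_smooth_aux h4
  have hspan_Q : Submodule.span (RatFunc k)
        (Set.range (fun j => fun i => aeval Q (pderiv i (g j)))) =
      Submodule.span (RatFunc k) (Set.range (fun j => fun i => aeval Q (pderiv i (f j)))) := by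
    apply Submodule.eq_of_le_of_finrank_eq
    · rw [Submodule.span_le]
      rintro _ ⟨j, rfl⟩
      exact semi_grad hQI h1 hh' (hgI j) (h6 _ (hgI j))
    · rw [finrank_span_eq_card hgindQ, finrank_span_eq_card hfindQ]
      simpa using hcc
  -- the weight
  obtain ⟨i₀, hi₀⟩ := Function.ne_iff.mp hvn
  simp only [Pi.zero_apply] at hi₀
  set w₀ : ℤ := b i₀ with hw₀
  have hw₀pos : 0 < w₀ := by
    by_contra hcon
    exact hi₀ (hv.1 i₀ (not_lt.mp hcon))
  -- the equations at `p`
  have hgp0 : ∀ j, w j = w₀ → ∀ i, b i ≠ w₀ → aeval p (pderiv i (g j)) = 0 := by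
    intro j hj i hi
    exact grad_weight (hgw j) (by rw [hj]; exact hi) hp0
  set v' : σ → k := fun i => if b i = w₀ then v i else 0 with hv'
  have hv'n : v' ≠ 0 := by
    intro h0
    apply hi₀
    have := congrFun h0 i₀
    simpa [hv', hw₀] using this
  have hv'0 : semiEqns b w₀ w (fun j i => aeval p (pderiv i (g j))) v' = 0 := by
    refine Prod.ext ?_ ?_
    · funext i
      simp only [semiEqns, LinearMap.coe_mk, AddHom.coe_mk, hv', if_neg i.2]
      rfl
    · funext j
      simp only [semiEqns, LinearMap.coe_mk, AddHom.coe_mk]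
      have e1 : ∑ i, aeval p (pderiv i (g j.1)) * v' i =
          ∑ i, aeval p (pderiv i (g j.1)) * v i := by
        refine Finset.sum_congr rfl fun i _ => ?_
        by_cases hi : b i = w₀
        · simp only [hv', if_pos hi]
        · rw [hgp0 j.1 j.2 i hi, zero_mul, zero_mul]
      rw [e1, hv.2 _ (hgI j.1)]
      rfl
  have hcard := semi_card hgind hgp0 hv'n hv'0
  -- the equations at `Q`
  have hker : LinearMap.ker (semiEqns b w₀ w (fun j i => aeval Q (pderiv i (g j)))) ≠ ⊥ := by
    apply LinearMap.ker_ne_bot_of_finrank_lt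
    rw [semi_finrank, Module.finrank_fintype_fun_eq_card]
    exact hcard
  obtain ⟨u, hu, hun⟩ := Submodule.exists_mem_ne_zero_of_ne_bot hker
  rw [LinearMap.mem_ker] at hu
  have hu1 : ∀ i, b i ≠ w₀ → u i = 0 := fun i hi => by
    have := congrFun (congrArg Prod.fst hu) ⟨i, hi⟩
    simpa [semiEqns] using this
  have hu2 : ∀ j, w j = w₀ → ∑ i, aeval Q (pderiv i (g j)) * u i = 0 := fun j hj => by
    have := congrFun (congrArg Prod.snd hu) ⟨j, hj⟩
    simpa [semiEqns] using this
  have hu3 : ∀ j, ∑ i, aeval Q (pderiv i (g j)) * u i = 0 := fun j => by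
    by_cases hj : w j = w₀
    · exact hu2 j hj
    · refine Finset.sum_eq_zero fun i _ => ?_
      by_cases hi : b i = w₀
      · rw [grad_weight (hgw j) (by rw [hi]; exact fun h => hj h.symm) hQ0, zero_mul]
      · rw [hu1 i hi, mul_zero]
  let φ : (σ → RatFunc k) →ₗ[RatFunc k] RatFunc k :=
    { toFun := fun x => ∑ i, x i * u i
      map_add' := fun x y => by simp [add_mul, Finset.sum_add_distrib]
      map_smul' := fun a x => by
        simp only [Pi.smul_apply, smul_eq_mul, RingHom.id_apply, Finset.mul_sum]
        exact Finset.sum_congr rfl fun i _ => by ring }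
  have hφ : Submodule.span (RatFunc k)
      (Set.range (fun j => fun i => aeval Q (pderiv i (g j)))) ≤ LinearMap.ker φ := by
    rw [Submodule.span_le]
    rintro _ ⟨j, rfl⟩
    exact hu3 j
  refine ⟨u, hun, fun i hi => hu1 i (by omega), fun F hF => ?_⟩
  have hm := semi_grad hQI h1 hh' hF (h6 _ hF)
  rw [← hspan_Q] at hm
  exact hφ hm

end Pool.Agent.Helper97.GM
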