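import Pool.Agent.Helper97.GM.Tangent
import Pool.Agent.Helper97.GM.Graded
import Pool.Agent.Helper97.GM.SurfTwo
import Pool.Agent.Helper97.GM.SurfCurve
import Pool.Agent.Helper97.GM.Semi

/-!
# The standing hypotheses: a smooth variety, stable under the action, without rational surfaces
-/

set_option autoImplicit false

namespace Pool.Agent.Helper97.GM

open MvPolynomial

variable {k : Type*} [Field k] {σ : Type*} [Fintype σ]

/-- The standing hypotheses. -/
structure Setup (I : Ideal (MvPolynomial σ k)) (a : σ → ℤ) : Prop where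
  prime : I.IsPrime
  hom : Hom I
  stab : ∀ t : k, t ≠ 0 → ∀ x : σ → k, On I x → On I (fun i => t ^ a i * x i)
  smooth : ∀ x : σ → k, x ≠ 0 → On I x → SmoothPt I x
  no : ¬ HasSurface I

/-- `x` and `y` are the same point of the projective space. -/
def Prp (x y : σ → k) : Prop := ∃ c : k, c ≠ 0 ∧ ∀ i, y i = c * x i

/-- `x` and `y` lie in one orbit. -/
def Orb (a : σ → ℤ) (x y : σ → k) : Prop :=
  ∃ c t : k, c ≠ 0 ∧ t ≠ 0 ∧ ∀ i, y i = c * (t ^ a i * x i)

/-- The part of weight `α`. -/
def wt (a : σ → ℤ) (α : ℤ) (x : σ → k) : σ → k := fun i => if a i = α then x i else 0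

/-- `α` is the lowest weight of `x`. -/
def IsLow (a : σ → ℤ) (x : σ → k) (α : ℤ) : Prop := (∀ i, x i ≠ 0 → α ≤ a i) ∧ ∃ i, a i = α ∧ x i ≠ 0

variable {I : Ideal (MvPolynomial σ k)} {a : σ → ℤ}

theorem Setup.neg (h : Setup I a) : Setup I (fun i => - a i) := by
  refine ⟨h.prime, h.hom, fun t ht x hx => ?_, h.smooth, h.no⟩
  have h1 := h.stab t⁻¹ (inv_ne_zero ht) x hx
  simpa only [inv_zpow'] using h1

theorem Setup.graded [IsAlgClosed k] (h : Setup I a) (α : ℤ) : Graded I (fun i => a i - α) := by
  refine graded_of_stable h.prime fun t ht x hx => ?_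
  have h1 := on_smul h.hom (t ^ (-α)) (h.stab t ht x hx)
  have h2 : (fun i => t ^ (a i - α) * x i) = fun i => t ^ (-α) * (t ^ a i * x i) := by
    funext i
    rw [sub_eq_add_neg, zpow_add₀ ht]
    ring
  rw [h2]
  exact h1

/-- A polynomial curve in the zero locus: the equations hold identically. -/
theorem on_poly [Infinite k] {Y : σ → Polynomial k}
    (hY : ∀ s : k, On I (fun i => (Y i).eval s)) : On I Y := by
  intro f hf
  apply Polynomial.funext
  intro s
  have h1 := hY s f hf
  rw [Polynomial.eval_zero, ← h1]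
  have h2 := DFunLike.congr_fun (comp_aeval (R := k) Y (Polynomial.aeval (R := k) s)) f
  simp only [AlgHom.comp_apply] at h2
  rw [← Polynomial.coe_aeval_eq_eval, h2]

/-- The generic point of a polynomial curve in the zero locus. -/
theorem on_gen [Infinite k] {Y : σ → Polynomial k}
    (hY : ∀ s : k, On I (fun i => (Y i).eval s)) :
    On I (fun i => algebraMap (Polynomial k) (RatFunc k) (Y i)) := by
  intro f hf
  have h1 := on_poly hY f hf
  have h2 := aeval_algebraMap_apply (RatFunc k) Y f
  rw [h1, map_zero] at h2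
  exact h2

/-- The limit of the generic point of a curve which is not pointwise fixed is constant. -/
theorem Setup.lim_const [IsAlgClosed k] (h : Setup I a) {Y : σ → Polynomial k}
    (hY : ∀ s : k, On I (fun i => (Y i).eval s)) {α : ℤ} (hlow : ∀ i, a i < α → Y i = 0) {i₀ : σ}
    (hi : a i₀ = α) (hYi : Y i₀ ≠ 0) (hne : ∃ i, a i ≠ α ∧ Y i ≠ 0) {j : σ} (hj : a j = α) :
    ∃ c : k, Y j = Polynomial.C c * Y i₀ := by
  classical
  by_contra hcon
  push Not at hcon
  have hinj : Function.Injective (algebraMap (Polynomial k) (RatFunc k)) :=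
    RatFunc.algebraMap_injective k
  set b : σ → ℤ := fun i => a i - α with hb
  have hI : Graded I b := h.graded α
  set y : σ → RatFunc k := fun i => algebraMap (Polynomial k) (RatFunc k) (Y i) with hy
  have hyI : On I y := on_gen hY
  have hneg : ∀ i, b i < 0 → y i = 0 := by
    intro i hi'
    have h1 : a i < α := by
      have h2 : a i - α < 0 := hi'
      omega
    simp only [hy, hlow i h1, map_zero]
  have hne' : ∃ i, b i ≠ 0 ∧ y i ≠ 0 := by
    obtain ⟨i, h1, h2⟩ := hne
    refine ⟨i, ?_, ?_⟩
    · show a i - α ≠ 0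
      omega
    · exact fun h3 => h2 (hinj (by rw [map_zero]; exact h3))
  obtain ⟨w, hw, -, ⟨i₁, hi₁, hi₁'⟩, hT⟩ := tpos_of_point hI hyI hneg hne'
  -- a good parameter
  obtain ⟨s₀, hs₀⟩ : ∃ s₀ : k, (Y i₀).eval s₀ ≠ 0 := by
    by_contra hall
    push Not at hall
    exact hYi (Polynomial.funext fun s => by rw [hall s, Polynomial.eval_zero])
  have hneg0 : ∀ i, b i < 0 → (Y i).eval s₀ = 0 := by
    intro i hi'
    have h1 : a i < α := by
      have h2 : a i - α < 0 := hi'
      omega
    rw [hlow i h1, Polynomial.eval_zero]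
  have hp0 : On I (part0 b (fun i => (Y i).eval s₀)) := on_part0 hI (hY s₀) hneg0
  have hpn : part0 b (fun i => (Y i).eval s₀) ≠ 0 := by
    intro h1
    apply hs₀
    have h2 := congrFun h1 i₀
    simp only [part0, hb, hi, sub_self, if_true, Pi.zero_apply] at h2
    exact h2
  have hsm := h.smooth _ hpn hp0
  have hq : (fun i => ((if b i = 0 then Y i else 0 : Polynomial k)).eval s₀)
      = part0 b (fun i => (Y i).eval s₀) := by
    funext i
    simp only [part0]
    split_ifs <;> simp
  rw [← hq] at hsm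
  have hsg := smooth_gen (q := fun i => if b i = 0 then Y i else 0) hsm
  have hq2 : (fun i => algebraMap (Polynomial k) (RatFunc k) (if b i = 0 then Y i else 0))
      = part0 b y := by
    funext i
    simp only [part0, hy]
    split_ifs <;> simp
  rw [hq2] at hsg
  have hpart : ∀ i, b i = 0 → part0 b y i = y i := fun i h1 => by simp only [part0, if_pos h1]
  have hbi : b i₀ = 0 := by
    show a i₀ - α = 0
    omega
  have hbj : b j = 0 := by
    show a j - α = 0
    omega
  have hyi0 : y i₀ ≠ 0 := fun h3 => hYi (hinj (by rw [map_zero]; exact h3))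
  refine h.no (surf_curve hI h.hom (on_part0 hI hyI hneg)
    (fun i h1 => by simp only [part0, if_neg h1]) hsg (i₀ := i₀) (j₀ := j) ?_ ?_ hT ?_)
  · rw [hpart i₀ hbi]
    exact hyi0
  · intro c hc
    rw [hpart i₀ hbi, hpart j hbj, div_eq_iff hyi0] at hc
    apply hcon c
    apply hinj
    rw [map_mul]
    have h5 : algebraMap (Polynomial k) (RatFunc k) (Polynomial.C c)
        = algebraMap k (RatFunc k) c := by
      rw [IsScalarTower.algebraMap_apply k (Polynomial k) (RatFunc k)]
      rfl
    rw [h5]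
    exact hc
  · intro h1
    have h2 := congrFun h1 i₁
    rw [if_pos hi₁] at h2
    exact hi₁' h2

/-- Two points which are not fixed and have the same limit lie in one orbit. -/
theorem Setup.orb [IsAlgClosed k] (h : Setup I a) {x y : σ → k} (hx : On I x) (hy : On I y) {α : ℤ}
    (hxα : IsLow a x α) (hyα : IsLow a y α) (hxy : Prp (wt a α x) (wt a α y))
    (hne : ∃ i, a i ≠ α ∧ x i ≠ 0) (hne' : ∃ i, a i ≠ α ∧ y i ≠ 0) : Orb a x y := by
  classical
  obtain ⟨c, hc, hcx⟩ := hxy
  set b : σ → ℤ := fun i => a i - α with hb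
  have hI : Graded I b := h.graded α
  have hx' : On I (fun i => c * x i) := on_smul h.hom c hx
  have hneg : ∀ i, b i < 0 → c * x i = 0 := by
    intro i hi
    by_contra hcon
    have h1 := hxα.1 i (right_ne_zero_of_mul hcon)
    have h2 : a i - α < 0 := hi
    omega
  have hneg' : ∀ i, b i < 0 → y i = 0 := by
    intro i hi
    by_contra hcon
    have h1 := hyα.1 i hcon
    have h2 : a i - α < 0 := hi
    omega
  have hp : part0 b (fun i => c * x i) = part0 b y := by
    funext i
    have h1 := hcx i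
    simp only [wt] at h1
    simp only [part0]
    by_cases hi : a i = α
    · have h2 : b i = 0 := by
        show a i - α = 0
        omega
      rw [if_pos hi, if_pos hi] at h1
      rw [if_pos h2, if_pos h2, h1]
    · have h2 : b i ≠ 0 := by
        show a i - α ≠ 0
        omega
      rw [if_neg h2, if_neg h2]
  have hpn : part0 b (fun i => c * x i) ≠ 0 := by
    obtain ⟨i, hi, hxi⟩ := hxα.2
    intro h1
    have h2 := congrFun h1 i
    have h3 : b i = 0 := by
      show a i - α = 0
      omega
    simp only [part0, if_pos h3, Pi.zero_apply] at h2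
    exact (mul_ne_zero hc hxi) h2
  have hpI := on_part0 hI hx' hneg
  have hT : ∀ v v' : σ → k, TPos I b (part0 b (fun i => c * x i)) v →
      TPos I b (part0 b (fun i => c * x i)) v' → ¬ LinearIndependent k ![v, v'] := by
    intro v v' hv hv' hli
    exact h.no (surf_two hI h.hom hpI (fun i h1 => by simp only [part0, if_neg h1]) hpn
      (h.smooth _ hpn hpI) hv hv' hli)
  have hsub : ∀ i, a i ≠ α → b i ≠ 0 := by
    intro i hi
    show a i - α ≠ 0
    omega
  obtain ⟨t, ht, hty⟩ := uniq hI hx' hy hneg hneg' hp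
    (by obtain ⟨i, h1, h2⟩ := hne; exact ⟨i, hsub i h1, mul_ne_zero hc h2⟩)
    (by obtain ⟨i, h1, h2⟩ := hne'; exact ⟨i, hsub i h1, h2⟩) hT
  refine ⟨c * t ^ (-α), t, mul_ne_zero hc (zpow_ne_zero _ ht), ht, fun i => ?_⟩
  rw [hty i]
  have h1 : t ^ b i = t ^ a i * t ^ (-α) := by
    rw [← zpow_add₀ ht]
    rfl
  rw [h1]
  ring

/-- No curve of fixed points passes through the limit of a point which is not fixed. -/
theorem Setup.fixed_curve [IsAlgClosed k] (h : Setup I a) {Y : σ → Polynomial k}
    (hY : ∀ s : k, On I (fun i => (Y i).eval s)) {α : ℤ} (hα : ∀ i, a i ≠ α → Y i = 0) {x : σ → k}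
    (hx : On I x) (hxα : IsLow a x α) (hne : ∃ i, a i ≠ α ∧ x i ≠ 0) {s₀ : k}
    (hs : Prp (wt a α x) (fun i => (Y i).eval s₀)) {i₀ j₀ : σ} (hi : Y i₀ ≠ 0) :
    ∃ c : k, Y j₀ = Polynomial.C c * Y i₀ := by
  classical
  by_contra hcon
  push Not at hcon
  have hinj : Function.Injective (algebraMap (Polynomial k) (RatFunc k)) :=
    RatFunc.algebraMap_injective k
  obtain ⟨c, hc, hcx⟩ := hs
  set b : σ → ℤ := fun i => a i - α with hb
  have hI : Graded I b := h.graded α
  have hx' : On I (fun i => c * x i) := on_smul h.hom c hx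
  have hneg : ∀ i, b i < 0 → c * x i = 0 := by
    intro i hi
    by_contra hcon
    have h1 := hxα.1 i (right_ne_zero_of_mul hcon)
    have h2 : a i - α < 0 := hi
    omega
  have hp : part0 b (fun i => c * x i) = fun i => (Y i).eval s₀ := by
    funext i
    have h1 := hcx i
    simp only [wt] at h1
    simp only [part0]
    by_cases hi : a i = α
    · have h2 : b i = 0 := by
        show a i - α = 0
        omega
      rw [if_pos hi] at h1
      rw [if_pos h2, h1]
    · have h2 : b i ≠ 0 := by
        show a i - α ≠ 0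
        omega
      rw [if_neg hi, mul_zero] at h1
      rw [if_neg h2, h1]
  have hpn : part0 b (fun i => c * x i) ≠ 0 := by
    obtain ⟨i, hi, hxi⟩ := hxα.2
    intro h1
    have h2 := congrFun h1 i
    have h3 : b i = 0 := by
      show a i - α = 0
      omega
    simp only [part0, if_pos h3, Pi.zero_apply] at h2
    exact (mul_ne_zero hc hxi) h2
  have hsub : ∀ i, a i ≠ α → b i ≠ 0 := by
    intro i hi
    show a i - α ≠ 0
    omega
  have hsub' : ∀ i, b i ≠ 0 → Y i = 0 := by
    intro i h1
    apply hα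
    have h2 : a i - α ≠ 0 := h1
    omega
  obtain ⟨w, hw, -, ⟨i₁, hi₁, hi₁'⟩, hT⟩ := tpos_of_point hI hx' hneg
    (by obtain ⟨i, h1, h2⟩ := hne; exact ⟨i, hsub i h1, mul_ne_zero hc h2⟩)
  rw [hp] at hT hpn
  have hsm := h.smooth _ hpn (hY s₀)
  obtain ⟨u, hun, huT⟩ := semi hI (on_poly hY) hsub' hsm hT (fun h1 => by
    have h2 := congrFun h1 i₁
    rw [if_pos hi₁] at h2
    exact hi₁' h2)
  have hyi0 : algebraMap (Polynomial k) (RatFunc k) (Y i₀) ≠ 0 :=
    fun h3 => hi (hinj (by rw [map_zero]; exact h3))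
  refine h.no (surf_curve hI h.hom (on_gen hY)
    (fun i h1 => by rw [hsub' i h1, map_zero]) (smooth_gen hsm) (i₀ := i₀) (j₀ := j₀) hyi0 ?_
    huT hun)
  intro c' hc'
  rw [div_eq_iff hyi0] at hc'
  apply hcon c'
  apply hinj
  rw [map_mul]
  have h5 : algebraMap (Polynomial k) (RatFunc k) (Polynomial.C c')
      = algebraMap k (RatFunc k) c' := by
    rw [IsScalarTower.algebraMap_apply k (Polynomial k) (RatFunc k)]
    rfl
  rw [h5]
  exact hc'

end Pool.Agent.Helper97.GM
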