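import Pool.Agent.Helper97.GM.Taylor

/-!
# Limits and tangent vectors
-/

set_option autoImplicit false

namespace Pool.Agent.Helper97.GM

open MvPolynomial

variable {k : Type*} [Field k] {σ : Type*} [Fintype σ]

omit [Fintype σ] in
/-- An additive map which vanishes on all weight components vanishes. -/
theorem map_eq_zero_of_comp {b : σ → ℤ} {B : Type*} [AddCommGroup B]
    (φ : MvPolynomial σ k →+ B) (f : MvPolynomial σ k)
    (h : ∀ w : ℤ, φ (weightedHomogeneousComponent b w f) = 0) : φ f = 0 := by
  classical
  have h1 := sum_weightedHomogeneousComponent (R := k) b f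
  rw [finsum_eq_sum _ (weightedHomogeneousComponent_finsupp f)] at h1
  rw [← h1, map_sum]
  exact Finset.sum_eq_zero fun w _ => h w

/-- The additive map of the tangency condition. -/
noncomputable def tanMap {K : Type*} [CommRing K] [Algebra k K] (p v : σ → K) :
    MvPolynomial σ k →+ K :=
  AddMonoidHom.mk' (fun f => ∑ i, aeval p (pderiv i f) * v i) (by
    intro f g
    simp only [map_add, add_mul, Finset.sum_add_distrib])

theorem tanMap_apply {K : Type*} [CommRing K] [Algebra k K] (p v : σ → K)
    (f : MvPolynomial σ k) : tanMap p v f = ∑ i, aeval p (pderiv i f) * v i := rfl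

/-- The limit for `t → 0` lies in the variety. -/
theorem on_part0 {I : Ideal (MvPolynomial σ k)} {b : σ → ℤ} (hI : Graded I b) {L : Type*} [Field L]
    [Algebra k L] {y : σ → L} (hy : On I y) (hneg : ∀ i, b i < 0 → y i = 0) :
    On I (part0 b y) := by
  intro f hf
  have key := map_eq_zero_of_comp (b := b)
    ((aeval (part0 b y) : MvPolynomial σ k →ₐ[k] L) : MvPolynomial σ k →+ L) f ?_
  · exact key
  intro w
  have hwh := weightedHomogeneousComponent_isWeightedHomogeneous (w := b) w f
  have hp : ∀ i, b i ≠ 0 → part0 b y i = 0 := by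
    intro i hi
    simp [part0, hi]
  change aeval (part0 b y) (weightedHomogeneousComponent b w f) = 0
  by_cases hw : w = 0
  · subst hw
    rw [← aeval_eq_part0 hwh le_rfl hneg]
    exact hy _ (hI f hf 0)
  · exact aeval_part0 hwh hw hp

/-- Two points of the variety with the same limit: the lowest part of their difference is tangent. -/
theorem tpos_of_two {I : Ideal (MvPolynomial σ k)} {b : σ → ℤ} (hI : Graded I b) {L : Type*}
    [Field L] [Algebra k L] {y y' : σ → L} (hy : On I y) (hy' : On I y')
    (hneg : ∀ i, b i < 0 → y i = 0) (h0 : ∀ i, b i ≤ 0 → y i = y' i) {w : ℤ} (hw : 0 < w)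
    (hlt : ∀ i, b i < w → y i = y' i) :
    TPos I b (part0 b y) (fun i => if b i = w then y i - y' i else 0) := by
  have hp : ∀ i, b i ≠ 0 → part0 b y i = 0 := by
    intro i hi
    simp [part0, hi]
  refine ⟨?_, ?_⟩
  · intro i hi
    have : b i ≠ w := by omega
    simp [this]
  · intro f hf
    have key := map_eq_zero_of_comp (b := b)
      (tanMap (part0 b y) (fun i => if b i = w then y i - y' i else 0)) f ?_
    · rw [tanMap_apply] at key
      exact key
    intro w'
    have hwh := weightedHomogeneousComponent_isWeightedHomogeneous (w := b) w' f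
    have hmem := hI f hf w'
    rw [tanMap_apply]
    by_cases hww : w' = w
    · subst hww
      have hd := diff hwh hneg h0 hlt
      rw [hy _ hmem, hy' _ hmem, sub_zero] at hd
      rw [hd]
      refine Finset.sum_congr rfl fun i _ => ?_
      by_cases hi : b i = w'
      · simp [hi]
      · rw [grad_weight hwh hi hp]
        simp
    · refine Finset.sum_eq_zero fun i _ => ?_
      by_cases hi : b i = w
      · have hi' : b i ≠ w' := by omega
        rw [grad_weight hwh hi' hp, zero_mul]
      · simp [hi]

/-- A point which is not its limit gives a tangent vector, homogeneous of positive weight. -/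
theorem tpos_of_point {I : Ideal (MvPolynomial σ k)} {b : σ → ℤ} (hI : Graded I b) {L : Type*}
    [Field L] [Algebra k L] {y : σ → L} (hy : On I y) (hneg : ∀ i, b i < 0 → y i = 0)
    (hne : ∃ i, b i ≠ 0 ∧ y i ≠ 0) :
    ∃ w : ℤ, 0 < w ∧ (∀ i, b i ≠ 0 → b i < w → y i = 0) ∧ (∃ i, b i = w ∧ y i ≠ 0) ∧
      TPos I b (part0 b y) (fun i => if b i = w then y i else 0) := by
  classical
  have hS : (Finset.univ.filter fun i => b i ≠ 0 ∧ y i ≠ 0).Nonempty := by
    obtain ⟨i, hi⟩ := hne
    exact ⟨i, by simpa using hi⟩
  obtain ⟨i0, hi0, hmin⟩ := Finset.exists_min_image _ b hS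
  simp only [Finset.mem_filter, Finset.mem_univ, true_and] at hi0 hmin
  have hpos : 0 < b i0 := by
    rcases lt_trichotomy (b i0) 0 with h | h | h
    · exact absurd (hneg i0 h) hi0.2
    · exact absurd h hi0.1
    · exact h
  have hlow : ∀ i, b i ≠ 0 → b i < b i0 → y i = 0 := by
    intro i hi hlt
    by_contra hyi
    have := hmin i ⟨hi, hyi⟩
    omega
  refine ⟨b i0, hpos, hlow, ⟨i0, rfl, hi0.2⟩, ?_⟩
  have hy0 : On I (part0 b y) := on_part0 hI hy hneg
  have hT := tpos_of_two hI hy hy0 hneg (w := b i0) ?_ hpos ?_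
  · have e : (fun i => if b i = b i0 then y i - part0 b y i else 0) =
        fun i => if b i = b i0 then y i else 0 := by
      funext i
      by_cases hi : b i = b i0
      · simp [hi, part0, hi0.1]
      · simp [hi]
    rw [e] at hT
    exact hT
  · intro i hi
    by_cases hb : b i = 0
    · simp [part0, hb]
    · have : b i < 0 := by omega
      simp [part0, hb, hneg i this]
  · intro i hi
    by_cases hb : b i = 0
    · simp [part0, hb]
    · simp [part0, hb, hlow i hb hi]

theorem indep_of_disjoint {K ι : Type*} [Field K] {v v' : ι → K} {i j : ι} (hi : v i ≠ 0)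
    (hi' : v' i = 0) (hj : v j = 0) (hj' : v' j ≠ 0) : LinearIndependent K ![v, v'] := by
  rw [LinearIndependent.pair_iff]
  intro s t h
  have h1 := congrFun h i
  have h2 := congrFun h j
  simp only [Pi.add_apply, Pi.smul_apply, smul_eq_mul, Pi.zero_apply, hi', hj, mul_zero,
    add_zero, zero_add, mul_eq_zero, hi, hj', or_false] at h1 h2
  exact ⟨h1, h2⟩

theorem prod_zpow {K ι : Type*} [Field K] {t : K} (ht : t ≠ 0) (s : Finset ι) (f : ι → ℤ) :
    ∏ i ∈ s, t ^ f i = t ^ ∑ i ∈ s, f i := by
  classical
  induction s using Finset.induction_on with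
  | empty => simp
  | insert a s ha ih => rw [Finset.prod_insert ha, Finset.sum_insert ha, zpow_add₀ ht, ih]

/-- The action of `t` on a weight homogeneous polynomial. -/
theorem aeval_act {b : σ → ℤ} {f : MvPolynomial σ k} {w : ℤ} (hf : IsWeightedHomogeneous b f w)
    (y : σ → k) {t : k} (ht : t ≠ 0) :
    aeval (fun i => t ^ b i * y i) f = t ^ w * aeval y f := by
  rw [aeval_def, aeval_def, eval₂_eq', eval₂_eq', Finset.mul_sum]
  refine Finset.sum_congr rfl fun d hd => ?_
  have hd' : coeff d f ≠ 0 := by simpa [mem_support_iff] using hd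
  have hw := hf hd'
  have hw' : w = ∑ i, (d i : ℤ) * b i := by
    rw [← hw, Finsupp.weight_apply, Finsupp.sum_fintype _ _ (by intro i; simp)]
    exact Finset.sum_congr rfl fun i _ => by simp
  have e : ∏ i, (t ^ b i * y i) ^ d i = t ^ w * ∏ i, y i ^ d i := by
    rw [hw', ← prod_zpow ht, ← Finset.prod_mul_distrib]
    refine Finset.prod_congr rfl fun i _ => ?_
    rw [mul_pow, ← zpow_natCast (t ^ b i) (d i), ← zpow_mul, mul_comm (b i)]
  rw [e]
  ring

/-- Uniqueness: if the positive part of the tangent space at `p` is at most one dimensional, two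
points with limit `p` which are not fixed lie in one orbit. -/
theorem uniq [IsAlgClosed k] {I : Ideal (MvPolynomial σ k)} {b : σ → ℤ} (hI : Graded I b)
    {y y' : σ → k} (hy : On I y) (hy' : On I y') (hneg : ∀ i, b i < 0 → y i = 0)
    (hneg' : ∀ i, b i < 0 → y' i = 0) (hp : part0 b y = part0 b y')
    (hne : ∃ i, b i ≠ 0 ∧ y i ≠ 0) (hne' : ∃ i, b i ≠ 0 ∧ y' i ≠ 0)
    (hT : ∀ v v' : σ → k, TPos I b (part0 b y) v → TPos I b (part0 b y) v' →
      ¬ LinearIndependent k ![v, v']) :
    ∃ t : k, t ≠ 0 ∧ ∀ i, y' i = t ^ b i * y i := by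
  classical
  obtain ⟨w, hw, hlow, ⟨a, ha, hya⟩, hTw⟩ := tpos_of_point hI hy hneg hne
  obtain ⟨w', hw', hlow', ⟨a', ha', hya'⟩, hTw'⟩ := tpos_of_point hI hy' hneg' hne'
  rw [← hp] at hTw'
  have hww : w = w' := by
    by_contra hne
    refine hT _ _ hTw hTw' (indep_of_disjoint (i := a) (j := a') ?_ ?_ ?_ ?_)
    · simpa [ha] using hya
    · have : b a ≠ w' := by omega
      simp [this]
    · have : b a' ≠ w := by omega
      simp [this]
    · simpa [ha'] using hya'
  subst hww
  have hv0 : (fun i => if b i = w then y i else 0) ≠ 0 := by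
    intro h
    have := congrFun h a
    simp [ha] at this
    exact hya this
  have hdep := hT _ _ hTw hTw'
  rw [LinearIndependent.pair_iff' hv0] at hdep
  push Not at hdep
  obtain ⟨c, hc⟩ := hdep
  have hcy : ∀ i, b i = w → c * y i = y' i := by
    intro i hi
    have := congrFun hc i
    simpa [hi] using this
  have hc0 : c ≠ 0 := by
    rintro rfl
    have := hcy a' ha'
    rw [zero_mul] at this
    exact hya' this.symm
  obtain ⟨t, ht⟩ := IsAlgClosed.exists_pow_nat_eq c (n := w.toNat) (by omega)
  have ht0 : t ≠ 0 := by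
    rintro rfl
    rw [zero_pow (by omega)] at ht
    exact hc0 ht.symm
  have htw : t ^ w = c := by
    rw [← ht, ← zpow_natCast, Int.toNat_of_nonneg hw.le]
  refine ⟨t, ht0, ?_⟩
  set y2 : σ → k := fun i => t ^ b i * y i with hy2
  have hon : On I y2 := by
    intro f hf
    have key := map_eq_zero_of_comp (b := b)
      ((aeval y2 : MvPolynomial σ k →ₐ[k] k) : MvPolynomial σ k →+ k) f ?_
    · exact key
    intro u
    change aeval y2 (weightedHomogeneousComponent b u f) = 0
    rw [hy2, aeval_act (weightedHomogeneousComponent_isWeightedHomogeneous u f) y ht0,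
      hy _ (hI f hf u), mul_zero]
  have hneg2 : ∀ i, b i < 0 → y2 i = 0 := by
    intro i hi
    simp [hy2, hneg i hi]
  have h00 : ∀ i, b i = 0 → y i = y' i := by
    intro i hi
    have := congrFun hp i
    simpa [part0, hi] using this
  have hp2 : part0 b y2 = part0 b y := by
    funext i
    by_cases hi : b i = 0
    · simp [part0, hi, hy2]
    · simp [part0, hi]
  by_contra hcon
  push Not at hcon
  have hS : (Finset.univ.filter fun i => y' i ≠ y2 i).Nonempty := by
    obtain ⟨i, hi⟩ := hcon
    exact ⟨i, by simpa using hi⟩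
  obtain ⟨i0, hi0, hmin⟩ := Finset.exists_min_image _ b hS
  simp only [Finset.mem_filter, Finset.mem_univ, true_and] at hi0 hmin
  have hlt : ∀ i, b i < b i0 → y2 i = y' i := by
    intro i hi
    by_contra hyi
    have := hmin i (fun h => hyi h.symm)
    omega
  have hle0 : ∀ i, b i ≤ 0 → y2 i = y' i := by
    intro i hi
    by_cases hb : b i = 0
    · rw [← h00 i hb]
      simp [hy2, hb]
    · have hb' : b i < 0 := by omega
      rw [hneg2 i hb', hneg' i hb']
  have hpos : 0 < b i0 := by
    by_contra h
    exact hi0 (hle0 i0 (by omega)).symm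
  have hgt : w < b i0 := by
    rcases lt_trichotomy (b i0) w with h | h | h
    · exfalso
      apply hi0
      rw [hlow' i0 (by omega) h]
      simp [hy2, hlow i0 (by omega) h]
    · exfalso
      apply hi0
      rw [← hcy i0 h]
      simp [hy2, h, htw]
    · exact h
  have hT2 := tpos_of_two hI hon hy' hneg2 hle0 hpos hlt
  rw [hp2] at hT2
  refine hT _ _ hTw hT2 (indep_of_disjoint (i := a) (j := i0) ?_ ?_ ?_ ?_)
  · simpa [ha] using hya
  · have : b a ≠ b i0 := by omega
    simp [this]
  · have : b i0 ≠ w := by omega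
    simp [this]
  · simp only [if_true]
    exact sub_ne_zero.mpr (fun h => hi0 h.symm)

end Pool.Agent.Helper97.GM
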