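import Pool.Agent.Helper97.GM.Defs

/-!
# The weights and the first order expansion
-/

set_option autoImplicit false

namespace Pool.Agent.Helper97.GM

open MvPolynomial

variable {k : Type*} [Field k] {σ : Type*} [Fintype σ]

/-- First order Taylor expansion modulo the square of an ideal. -/
theorem taylor {A : Type*} [CommRing A] [Algebra k A] (J : Ideal A) (u v : σ → A)
    (hv : ∀ i, v i ∈ J) (f : MvPolynomial σ k) :
    aeval (fun i => u i + v i) f - aeval u f - ∑ i, aeval u (pderiv i f) * v i ∈ J ^ 2 := by
  classical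
  induction f using MvPolynomial.induction_on with
  | C a => simp
  | add p q hp hq =>
    have h := Ideal.add_mem _ hp hq
    have e : aeval (fun i => u i + v i) (p + q) - aeval u (p + q) -
        ∑ i, aeval u (pderiv i (p + q)) * v i =
        (aeval (fun i => u i + v i) p - aeval u p - ∑ i, aeval u (pderiv i p) * v i) +
        (aeval (fun i => u i + v i) q - aeval u q - ∑ i, aeval u (pderiv i q) * v i) := by
      simp only [map_add, add_mul, Finset.sum_add_distrib]
      ring
    rw [e]
    exact h
  | mul_X p j hp =>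
    have h1 : ∑ i, aeval u (pderiv i (p * X j)) * v i =
        (∑ i, aeval u (pderiv i p) * v i) * u j + aeval u p * v j := by
      have : ∀ i, aeval u (pderiv i (p * X j)) * v i =
          aeval u (pderiv i p) * v i * u j + (if i = j then aeval u p * v j else 0) := by
        intro i
        rw [pderiv_mul, map_add, map_mul, map_mul, aeval_X, pderiv_X]
        by_cases hij : i = j
        · subst hij
          rw [Pi.single_eq_same, map_one, if_pos rfl]
          ring
        · rw [Pi.single_eq_of_ne (Ne.symm hij), map_zero, if_neg hij]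
          ring
      rw [Finset.sum_congr rfl fun i _ => this i, Finset.sum_add_distrib, Finset.sum_mul,
        Finset.sum_ite_eq' Finset.univ j, if_pos (Finset.mem_univ _)]
    have e : aeval (fun i => u i + v i) (p * X j) - aeval u (p * X j) -
        ∑ i, aeval u (pderiv i (p * X j)) * v i =
        (aeval (fun i => u i + v i) p - aeval u p - ∑ i, aeval u (pderiv i p) * v i) *
          (u j + v j) + (∑ i, aeval u (pderiv i p) * v i) * v j := by
      rw [h1, map_mul, map_mul, aeval_X, aeval_X]
      ring
    rw [e]
    refine Ideal.add_mem _ (Ideal.mul_mem_right _ _ hp) ?_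
    rw [pow_two]
    exact Ideal.mul_mem_mul (Ideal.sum_mem _ fun i _ => Ideal.mul_mem_left _ _ (hv i)) (hv j)

variable {b : σ → ℤ} {L : Type*} [Field L] [Algebra k L]

private theorem wt_eq {f : MvPolynomial σ k} {w : ℤ} (hf : IsWeightedHomogeneous b f w)
    {d : σ →₀ ℕ} (hd : d ∈ f.support) : ∑ i, (d i : ℤ) * b i = w := by
  have h3 := hf (mem_support_iff.1 hd)
  rw [← h3, Finsupp.weight_apply, Finsupp.sum_fintype _ _ (fun i => by simp)]
  simp

private theorem term_tw {y : σ → L} (hy : ∀ i, b i < 0 → y i = 0) (d : σ →₀ ℕ) {w : ℤ}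
    (hd : ∑ i, (d i : ℤ) * b i = w) :
    ∏ i, (Polynomial.C (y i) * Polynomial.X ^ (b i).toNat) ^ d i =
      Polynomial.C (∏ i, y i ^ d i) * (Polynomial.X : Polynomial L) ^ w.toNat := by
  by_cases h : ∃ i, b i < 0 ∧ d i ≠ 0
  · obtain ⟨i, hi, hdi⟩ := h
    have e1 : ∏ i, (Polynomial.C (y i) * Polynomial.X ^ (b i).toNat) ^ d i = (0 : Polynomial L) := by
      refine Finset.prod_eq_zero (Finset.mem_univ i) ?_
      rw [hy i hi, Polynomial.C_0, zero_mul, zero_pow hdi]
    have e2 : ∏ i, y i ^ d i = 0 := by
      refine Finset.prod_eq_zero (Finset.mem_univ i) ?_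
      rw [hy i hi, zero_pow hdi]
    rw [e1, e2, Polynomial.C_0, zero_mul]
  · push Not at h
    have e : w.toNat = ∑ i, (b i).toNat * d i := by
      have h1 : (w.toNat : ℤ) = ((∑ i, (b i).toNat * d i : ℕ) : ℤ) := by
        have h2 : ∀ i, (d i : ℤ) * b i = ((b i).toNat * d i : ℕ) := by
          intro i
          by_cases hi : b i < 0
          · rw [h i hi]
            simp
          · push_cast
            rw [Int.toNat_of_nonneg (not_lt.1 hi)]
            ring
        have h3 : w = ((∑ i, (b i).toNat * d i : ℕ) : ℤ) := by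
          rw [← hd, Nat.cast_sum]
          exact Finset.sum_congr rfl fun i _ => h2 i
        rw [Int.toNat_of_nonneg (by rw [h3]; exact Int.natCast_nonneg _)]
        exact h3
      exact_mod_cast h1
    rw [e, ← Finset.prod_pow_eq_pow_sum, map_prod, ← Finset.prod_mul_distrib]
    refine Finset.prod_congr rfl fun i _ => ?_
    rw [mul_pow, ← pow_mul, map_pow]

/-- `f` of weight `w` at `(t ^ b_i y_i)`. -/
theorem aeval_tw {f : MvPolynomial σ k} {w : ℤ} (hf : IsWeightedHomogeneous b f w) {y : σ → L}
    (hy : ∀ i, b i < 0 → y i = 0) :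
    aeval (fun i => Polynomial.C (y i) * Polynomial.X ^ (b i).toNat) f =
      Polynomial.C (aeval y f) * Polynomial.X ^ w.toNat := by
  rw [aeval_def, aeval_def, eval₂_eq', eval₂_eq', map_sum, Finset.sum_mul]
  refine Finset.sum_congr rfl fun d hd => ?_
  rw [term_tw hy d (wt_eq hf hd), map_mul]
  rw [IsScalarTower.algebraMap_apply k L (Polynomial L), Polynomial.algebraMap_eq]
  ring

/-- A weight homogeneous polynomial of weight `≠ 0` vanishes at points of weight `0`. -/
theorem aeval_part0 {f : MvPolynomial σ k} {w : ℤ} (hf : IsWeightedHomogeneous b f w) (hw : w ≠ 0)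
    {p : σ → L} (hp : ∀ i, b i ≠ 0 → p i = 0) : aeval p f = 0 := by
  rw [aeval_def, eval₂_eq']
  refine Finset.sum_eq_zero fun d hd => ?_
  obtain ⟨i, hi, hdi⟩ : ∃ i, b i ≠ 0 ∧ d i ≠ 0 := by
    by_contra hcon
    push Not at hcon
    apply hw
    rw [← wt_eq hf hd]
    refine Finset.sum_eq_zero fun i _ => ?_
    by_cases hi : b i = 0
    · rw [hi, mul_zero]
    · rw [hcon i hi, Nat.cast_zero, zero_mul]
  rw [Finset.prod_eq_zero (Finset.mem_univ i) (by rw [hp i hi, zero_pow hdi]), mul_zero]

/-- For `w ≤ 0` only the part of weight `0` matters. -/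
theorem aeval_eq_part0 {f : MvPolynomial σ k} {w : ℤ} (hf : IsWeightedHomogeneous b f w)
    (hw : w ≤ 0) {y : σ → L} (hy : ∀ i, b i < 0 → y i = 0) : aeval y f = aeval (part0 b y) f := by
  rw [aeval_def, aeval_def, eval₂_eq', eval₂_eq']
  refine Finset.sum_congr rfl fun d hd => ?_
  congr 1
  by_cases h : ∃ i, b i < 0 ∧ d i ≠ 0
  · obtain ⟨i, hi, hdi⟩ := h
    rw [Finset.prod_eq_zero (Finset.mem_univ i) (by rw [hy i hi, zero_pow hdi]),
      Finset.prod_eq_zero (Finset.mem_univ i)]
    unfold part0
    rw [if_neg hi.ne, zero_pow hdi]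
  · push Not at h
    have h1 : ∀ i, 0 ≤ (d i : ℤ) * b i := by
      intro i
      by_cases hi : b i < 0
      · rw [h i hi]
        simp
      · exact mul_nonneg (Int.natCast_nonneg _) (not_lt.1 hi)
    have h2 : ∑ i, (d i : ℤ) * b i = 0 := by
      have h3 := wt_eq hf hd
      have h4 : 0 ≤ ∑ i, (d i : ℤ) * b i := Finset.sum_nonneg fun i _ => h1 i
      omega
    have h5 := (Finset.sum_eq_zero_iff_of_nonneg fun i _ => h1 i).1 h2
    refine Finset.prod_congr rfl fun i _ => ?_
    have h6 := h5 i (Finset.mem_univ i)
    rcases mul_eq_zero.1 h6 with h7 | h7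
    · have h8 : d i = 0 := by exact_mod_cast h7
      rw [h8, pow_zero, pow_zero]
    · unfold part0
      rw [if_pos h7]

theorem grad_weight {f : MvPolynomial σ k} {w : ℤ} (hf : IsWeightedHomogeneous b f w) {i : σ}
    (hi : b i ≠ w) {p : σ → L} (hp : ∀ i, b i ≠ 0 → p i = 0) : aeval p (pderiv i f) = 0 :=
  aeval_part0 (hf.pderiv (n' := w - b i) (sub_add_cancel _ _)) (sub_ne_zero.2 (Ne.symm hi)) hp

/-- Two points with the same part of weight `0` which agree in weights `< w`. -/
theorem diff {f : MvPolynomial σ k} {w : ℤ} (hf : IsWeightedHomogeneous b f w) {y y' : σ → L}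
    (hy : ∀ i, b i < 0 → y i = 0) (h0 : ∀ i, b i ≤ 0 → y i = y' i)
    (hw : ∀ i, b i < w → y i = y' i) :
    aeval y f - aeval y' f = ∑ i, aeval (part0 b y) (pderiv i f) * (y i - y' i) := by
  have hp : ∀ i, b i ≠ 0 → part0 b y i = 0 := fun i hi => if_neg hi
  have hpp : part0 b y = part0 b y' := by
    funext i
    unfold part0
    by_cases hi : b i = 0
    · rw [if_pos hi, if_pos hi, h0 i hi.le]
    · rw [if_neg hi, if_neg hi]
  have hy' : ∀ i, b i < 0 → y' i = 0 := fun i hi => by rw [← h0 i hi.le, hy i hi]
  rcases le_or_gt w 0 with hw0 | hw0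
  · rw [aeval_eq_part0 hf hw0 hy, aeval_eq_part0 hf hw0 hy', hpp, sub_self]
    symm
    refine Finset.sum_eq_zero fun i _ => ?_
    by_cases hi : b i ≤ 0
    · rw [h0 i hi, sub_self, mul_zero]
    · rw [← hpp, grad_weight hf (by omega) hp, zero_mul]
  · obtain ⟨m, hm⟩ := Int.eq_ofNat_of_zero_le hw0.le
    have hm1 : 1 ≤ m := by omega
    have ht := aeval_tw hf hy
    have ht' := aeval_tw hf hy'
    have hwt : w.toNat = m := by omega
    rw [hwt] at ht ht'
    set u : σ → Polynomial L := fun i => Polynomial.C (y' i) * Polynomial.X ^ (b i).toNat with hu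
    set v : σ → Polynomial L := fun i => Polynomial.C (y i - y' i) * Polynomial.X ^ (b i).toNat
      with hv
    have huv : (fun i => u i + v i) = fun i => Polynomial.C (y i) * Polynomial.X ^ (b i).toNat := by
      funext i
      rw [hu, hv]
      simp only
      rw [← add_mul, ← Polynomial.C_add, add_sub_cancel]
    have hvJ : ∀ i, v i ∈ Ideal.span {(Polynomial.X : Polynomial L) ^ m} := by
      intro i
      rw [Ideal.mem_span_singleton]
      by_cases hi : y i = y' i
      · rw [hv]
        simp only
        rw [hi, sub_self, Polynomial.C_0, zero_mul]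
        exact dvd_zero _
      · have hbi : w ≤ b i := by
          by_contra hcon
          exact hi (hw i (not_le.1 hcon))
        exact Dvd.dvd.mul_left (pow_dvd_pow _ (by omega)) _
    have htay := taylor (Ideal.span {(Polynomial.X : Polynomial L) ^ m}) u v hvJ f
    rw [huv, ht, Ideal.span_singleton_pow, Ideal.mem_span_singleton, ← pow_mul] at htay
    have htay2 : (Polynomial.X : Polynomial L) ^ (m + 1) ∣
        Polynomial.C (aeval y f) * Polynomial.X ^ m - aeval u f -
          ∑ i, aeval u (pderiv i f) * v i :=
      dvd_trans (pow_dvd_pow _ (by omega)) htay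
    have hc := (Polynomial.X_pow_dvd_iff.1 htay2) m (by omega)
    rw [Polynomial.coeff_sub, Polynomial.coeff_sub, ht', Polynomial.coeff_C_mul_X_pow,
      Polynomial.coeff_C_mul_X_pow, if_pos rfl, if_pos rfl, sub_eq_zero, Polynomial.finsetSum_coeff]
      at hc
    rw [hc]
    refine Finset.sum_congr rfl fun i _ => ?_
    by_cases hi : b i = w
    · have e : (b i).toNat = m := by omega
      rw [hv]
      simp only
      rw [e, ← mul_assoc, Polynomial.coeff_mul_X_pow', if_pos le_rfl, Nat.sub_self,
        Polynomial.coeff_mul_C]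
      congr 1
      have h1 : (Polynomial.constantCoeff (aeval u (pderiv i f)) : L) =
          aeval (fun j => Polynomial.constantCoeff (u j)) (pderiv i f) := by
        have := MvPolynomial.comp_aeval_apply (R := k) u
          ((Polynomial.aeval (0 : L)).restrictScalars k : Polynomial L →ₐ[k] L) (pderiv i f)
        have h9 : Polynomial.eval 0 (aeval u (pderiv i f)) =
            aeval (fun j => Polynomial.eval 0 (u j)) (pderiv i f) := by
          simpa using this
        simpa only [Polynomial.constantCoeff_apply, Polynomial.coeff_zero_eq_eval_zero] using h9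
      have h2 : (fun j => Polynomial.constantCoeff (u j)) = part0 b y := by
        funext j
        rw [hu]
        simp only [Polynomial.constantCoeff_apply, Polynomial.coeff_C_mul_X_pow]
        unfold part0
        by_cases hj : b j = 0
        · rw [if_pos (by omega), if_pos hj, h0 j hj.le]
        · rw [if_neg hj]
          by_cases hj2 : b j < 0
          · rw [if_pos (by omega), hy' j hj2]
          · rw [if_neg (by omega)]
      rw [h2] at h1
      rw [← h1]
      rfl
    · have e1 : aeval (part0 b y) (pderiv i f) = 0 := grad_weight hf hi hp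
      rw [e1, zero_mul]
      by_cases hi2 : y i = y' i
      · rw [hv]
        simp only
        rw [hi2, sub_self, Polynomial.C_0, zero_mul, mul_zero, Polynomial.coeff_zero]
      · have hbi : w < b i := by
          rcases lt_trichotomy (b i) w with h | h | h
          · exact absurd (hw i h) hi2
          · exact absurd h hi
          · exact h
        rw [hv]
        simp only
        rw [← mul_assoc, Polynomial.coeff_mul_X_pow', if_neg (by omega)]

end Pool.Agent.Helper97.GM
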